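import Pool.Agent.W37.SG.Stm

/-!
Project SG (helper37), problem MP_9a3597_al: part SG-TR (helper654).
-/

set_option autoImplicit false

open scoped BigOperators

namespace Pool.Agent.W654.SGT

open Pool.Agent.W37.SG

variable {p : ℕ}

theorem agree {g : Pm p} (hg : IsTri p g) {k : ℕ} {x y : ℕ → ZMod p}
    (h : ∀ j < k, x j = y j) : ∀ j < k, g x j = g y j := by
  intro i hi
  have h1 := hg i x y (fun j hj => h j (hj.trans hi))
  rw [h i hi] at h1
  exact sub_left_inj.1 h1

theorem agree' {g : Pm p} (hg : IsTri p g) {k : ℕ} {x y : ℕ → ZMod p}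
    (h : ∀ j < k, g x j = g y j) : ∀ j < k, x j = y j := by
  intro i
  induction i using Nat.strong_induction_on with
  | _ i ih =>
    intro hi
    have h1 := hg i x y (fun j hj => ih j hj (hj.trans hi))
    rw [h i hi] at h1
    exact sub_right_inj.1 h1

/-- the truncation -/
def trunc (k : ℕ) (g : Pm p) (hg : IsTri p g) : Pm p where
  toFun x i := if i < k then g x i else x i
  invFun x i := if i < k then g.symm x i else x i
  left_inv x := by
    funext i
    beta_reduce
    by_cases hi : i < k
    · rw [if_pos hi]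
      refine agree' hg (k := k) (x := g.symm (fun i => if i < k then g x i else x i)) (y := x) ?_
        i hi
      intro j hj
      rw [Equiv.apply_symm_apply, if_pos hj]
    · rw [if_neg hi, if_neg hi]
  right_inv x := by
    funext i
    beta_reduce
    by_cases hi : i < k
    · rw [if_pos hi]
      have h := agree hg (k := k) (x := fun i => if i < k then g.symm x i else x i)
        (y := g.symm x) (fun j hj => by simp only [if_pos hj]) i hi
      rw [h, Equiv.apply_symm_apply]
    · rw [if_neg hi, if_neg hi]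

theorem tri_mul {g h : Pm p} (hg : IsTri p g) (hh : IsTri p h) : IsTri p (g * h) := by
  intro i x y hxy
  have h1 := hh i x y hxy
  have h2 := hg i (h x) (h y) (fun j hj => agree hh hxy j hj)
  show g (h x) i - x i = g (h y) i - y i
  calc g (h x) i - x i = (g (h x) i - h x i) + (h x i - x i) := by ring
    _ = (g (h y) i - h y i) + (h y i - y i) := by rw [h1, h2]
    _ = g (h y) i - y i := by ring

theorem mon_range [Fact p.Prime] {i N : ℕ} (hN : i ≤ N) (x : ℕ → ZMod p) :
    mon p i x = ∏ j ∈ Finset.range N, x j ^ (i / p ^ j % p) := by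
  unfold mon
  refine Finset.prod_subset (Finset.range_mono hN) ?_
  intro j _ hj
  have hj' : i ≤ j := by
    by_contra h
    exact hj (Finset.mem_range.2 (by omega))
  have h1 : i < p ^ j := lt_of_le_of_lt hj' (Nat.lt_pow_self (Nat.Prime.one_lt Fact.out))
  rw [Nat.div_eq_of_lt h1, Nat.zero_mod, pow_zero]

theorem digit_low [Fact p.Prime] (I : ℕ) {k j i0 : ℕ} (hj : j < k) :
    (I * p ^ k + i0) / p ^ j % p = i0 / p ^ j % p := by
  have hp : 0 < p := Nat.Prime.pos Fact.out
  obtain ⟨m, rfl⟩ : ∃ m, k = j + 1 + m := ⟨k - (j + 1), by omega⟩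
  have e : I * p ^ (j + 1 + m) + i0 = i0 + p ^ j * (p * (I * p ^ m)) := by
    rw [pow_add, pow_add]; ring
  rw [e, Nat.add_mul_div_left _ _ (pow_pos hp j), Nat.add_mul_mod_self_left]

theorem digit_high [Fact p.Prime] (I : ℕ) {k j i0 : ℕ} (hj : k ≤ j) (hi : i0 < p ^ k) :
    (I * p ^ k + i0) / p ^ j % p = (I * p ^ k) / p ^ j % p := by
  have hp : 0 < p := Nat.Prime.pos Fact.out
  obtain ⟨m, rfl⟩ : ∃ m, j = k + m := ⟨j - k, by omega⟩
  have e1 : (I * p ^ k + i0) / p ^ (k + m) = I / p ^ m := by
    rw [pow_add, ← Nat.div_div_eq_div_mul]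
    congr 1
    rw [add_comm, Nat.add_mul_div_right _ _ (pow_pos hp k), Nat.div_eq_of_lt hi, zero_add]
  have e2 : (I * p ^ k) / p ^ (k + m) = I / p ^ m := by
    rw [pow_add, ← Nat.div_div_eq_div_mul]
    congr 1
    exact Nat.mul_div_cancel _ (pow_pos hp k)
  rw [e1, e2]

theorem mon_mul [Fact p.Prime] (I : ℕ) {k i0 : ℕ} (hi : i0 < p ^ k) (x : ℕ → ZMod p) :
    mon p (I * p ^ k + i0) x = mon p (I * p ^ k) x * mon p i0 x := by
  rw [mon_range (le_refl (I * p ^ k + i0)) x,
    mon_range (show I * p ^ k ≤ I * p ^ k + i0 from Nat.le_add_right _ _) x,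
    mon_range (show i0 ≤ I * p ^ k + i0 from Nat.le_add_left _ _) x, ← Finset.prod_mul_distrib]
  refine Finset.prod_congr rfl fun j _ => ?_
  rw [← pow_add]
  congr 1
  rcases lt_or_ge j k with hj | hj
  · have h1 := digit_low (p := p) I (i0 := i0) hj
    have h2 := digit_low (p := p) I (i0 := 0) hj
    rw [add_zero, Nat.zero_div, Nat.zero_mod] at h2
    rw [h1, h2, zero_add]
  · rw [digit_high I hj hi]
    have h1 : i0 < p ^ j := lt_of_lt_of_le hi
      (Nat.pow_le_pow_right (Nat.Prime.pos Fact.out) hj)
    rw [Nat.div_eq_of_lt h1, Nat.zero_mod, add_zero]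

/-- monomials with index `< p^k` depend on the coordinates `< k` -/
theorem mon_low [Fact p.Prime] {k i0 : ℕ} (hi : i0 < p ^ k) {x y : ℕ → ZMod p}
    (h : ∀ j < k, x j = y j) : mon p i0 x = mon p i0 y := by
  unfold mon
  refine Finset.prod_congr rfl fun j _ => ?_
  rcases lt_or_ge j k with hj | hj
  · rw [h j hj]
  · have h1 : i0 < p ^ j := lt_of_lt_of_le hi
      (Nat.pow_le_pow_right (Nat.Prime.pos Fact.out) hj)
    rw [Nat.div_eq_of_lt h1, Nat.zero_mod, pow_zero, pow_zero]

/-- monomials `I p^k` depend on the coordinates `≥ k` -/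
theorem mon_high [Fact p.Prime] (I : ℕ) {k : ℕ} {x y : ℕ → ZMod p}
    (h : ∀ j, k ≤ j → x j = y j) : mon p (I * p ^ k) x = mon p (I * p ^ k) y := by
  unfold mon
  refine Finset.prod_congr rfl fun j _ => ?_
  rcases lt_or_ge j k with hj | hj
  · have h2 := digit_low (p := p) I (i0 := 0) hj
    rw [add_zero, Nat.zero_div, Nat.zero_mod] at h2
    rw [h2, pow_zero, pow_zero]
  · rw [h j hj]

theorem U_mono {m n : ℕ} (h : m ≤ n) : U p m ≤ U p n := by
  unfold U
  refine Submodule.span_mono ?_
  rintro f ⟨i, hi, rfl⟩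
  exact ⟨i, hi.trans_le h, rfl⟩

theorem mon_mem {i n : ℕ} (h : i < n) : mon p i ∈ U p n := Submodule.subset_span ⟨i, h, rfl⟩

theorem U_low [Fact p.Prime] {k : ℕ} {f : Fn p} (hf : f ∈ U p (p ^ k)) {x y : ℕ → ZMod p}
    (h : ∀ j < k, x j = y j) : f x = f y := by
  unfold U at hf
  induction hf using Submodule.span_induction with
  | mem f hf =>
    obtain ⟨i, hi, rfl⟩ := hf
    exact mon_low hi h
  | zero => rfl
  | add f g _ _ h1 h2 =>
    show f x + g x = f y + g y
    rw [h1, h2]
  | smul a f _ h1 =>
    show a * f x = a * f y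
    rw [h1]

theorem U_mul [Fact p.Prime] (I : ℕ) {k m : ℕ} (hm : m ≤ p ^ k) {f : Fn p} (hf : f ∈ U p m) :
    (fun x => mon p (I * p ^ k) x * f x) ∈ U p (I * p ^ k + m) := by
  unfold U at hf
  induction hf using Submodule.span_induction with
  | mem f hf =>
    obtain ⟨i, hi, rfl⟩ := hf
    have e : (fun x => mon p (I * p ^ k) x * mon p i x) = mon p (I * p ^ k + i) := by
      funext x
      exact (mon_mul I (hi.trans_le hm) x).symm
    rw [e]
    exact mon_mem (by omega)
  | zero =>
    have e : (fun x => mon p (I * p ^ k) x * (0 : Fn p) x) = 0 := by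
      funext x
      show mon p (I * p ^ k) x * 0 = 0
      exact mul_zero _
    rw [e]
    exact Submodule.zero_mem _
  | add f g _ _ h1 h2 =>
    have e : (fun x => mon p (I * p ^ k) x * (f + g) x) =
        (fun x => mon p (I * p ^ k) x * f x) + (fun x => mon p (I * p ^ k) x * g x) := by
      funext x
      exact mul_add _ _ _
    rw [e]
    exact Submodule.add_mem _ h1 h2
  | smul a f _ h1 =>
    have e : (fun x => mon p (I * p ^ k) x * (a • f) x) =
        a • (fun x => mon p (I * p ^ k) x * f x) := by
      funext x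
      show mon p (I * p ^ k) x * (a * f x) = a * (mon p (I * p ^ k) x * f x)
      ring
    rw [e]
    exact Submodule.smul_mem _ _ h1

theorem U_zero {f : Fn p} (hf : f ∈ U p 0) : f = 0 := by
  have e : {f : Fn p | ∃ i < 0, f = mon p i} = ∅ := by
    ext f
    simp
  unfold U at hf
  rw [e, Submodule.span_empty] at hf
  exact (Submodule.mem_bot _).1 hf

/-- depth of the truncation, for a monomial -/
theorem dep_mon [Fact p.Prime] {k d : ℕ} {g T : Pm p} (hT : IsTrunc p k g T) (hd : Dep p d g)
    (i : ℕ) : (fun x => mon p i (T x) - mon p i x) ∈ U p (i + 1 - d) := by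
  have hp : 0 < p := Nat.Prime.pos Fact.out
  set I := i / p ^ k with hI
  set i0 := i % p ^ k with hi0
  have hi : i = I * p ^ k + i0 := by
    rw [hI, hi0, mul_comm]; exact (Nat.div_add_mod i (p ^ k)).symm
  have hlt : i0 < p ^ k := Nat.mod_lt _ (pow_pos hp k)
  have e : (fun x => mon p i (T x) - mon p i x) =
      (fun x => mon p (I * p ^ k) x * (fun x => mon p i0 (g x) - mon p i0 x) x) := by
    funext x
    have h1 : mon p (I * p ^ k) (T x) = mon p (I * p ^ k) x :=
      mon_high I (fun j hj => by rw [hT x j, if_neg (by omega)])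
    have h2 : mon p i0 (T x) = mon p i0 (g x) :=
      mon_low hlt (fun j hj => by rw [hT x j, if_pos hj])
    rw [hi, mon_mul I hlt, mon_mul I hlt, h1, h2]
    ring
  rw [e]
  have hm := hd (i0 + 1) (mon p i0) (mon_mem (Nat.lt_succ_self _))
  rcases le_or_gt d (i0 + 1) with h | h
  · have h3 := U_mul I (k := k) (m := i0 + 1 - d) (by omega) hm
    have e2 : I * p ^ k + (i0 + 1 - d) = i + 1 - d := by omega
    rw [e2] at h3
    exact h3
  · rw [Nat.sub_eq_zero_of_le h.le] at hm
    have h0 := U_zero hm
    rw [h0]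
    have e2 : (fun x => mon p (I * p ^ k) x * (0 : Fn p) x) = 0 := by
      funext x
      exact mul_zero _
    rw [e2]
    exact Submodule.zero_mem _

theorem dep_trunc [Fact p.Prime] {k d : ℕ} {g T : Pm p} (hT : IsTrunc p k g T)
    (hd : Dep p d g) : Dep p d T := by
  intro n f hf
  unfold U at hf
  induction hf using Submodule.span_induction with
  | mem f hf =>
    obtain ⟨i, hi, rfl⟩ := hf
    exact U_mono (by omega) (dep_mon hT hd i)
  | zero =>
    have e : (fun x => (0 : Fn p) (T x) - (0 : Fn p) x) = 0 := by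
      funext x
      exact sub_self _
    rw [e]
    exact Submodule.zero_mem _
  | add f g _ _ h1 h2 =>
    have e : (fun x => (f + g) (T x) - (f + g) x) =
        (fun x => f (T x) - f x) + (fun x => g (T x) - g x) := by
      funext x
      show (f (T x) + g (T x)) - (f x + g x) = (f (T x) - f x) + (g (T x) - g x)
      ring
    rw [e]
    exact Submodule.add_mem _ h1 h2
  | smul a f _ h1 =>
    have e : (fun x => (a • f) (T x) - (a • f) x) = a • (fun x => f (T x) - f x) := by
      funext x
      show a * f (T x) - a * f x = a * (f (T x) - f x)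
      ring
    rw [e]
    exact Submodule.smul_mem _ _ h1

open Classical in
theorem main : Pool.Agent.W37.SG.S_TR := by
  intro p _ k
  set T : Pm p → Pm p := fun g => if hg : IsTri p g then trunc k g hg else 1 with hTdef
  have hT : ∀ g (hg : IsTri p g), T g = trunc k g hg := fun g hg => dif_pos hg
  have htr : ∀ g, IsTri p g → IsTrunc p k g (T g) := by
    intro g hg x i
    rw [hT g hg]
    rfl
  refine ⟨T, ?_, ?_, ?_, ?_, ?_, ?_⟩
  · intro g hg
    refine ⟨htr g hg, ?_, ?_⟩
    · intro i x y hxy
      rw [htr g hg x i, htr g hg y i]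
      split_ifs with hi
      · exact hg i x y hxy
      · rw [sub_self, sub_self]
    · intro x i hi
      rw [htr g hg x i, if_neg (by omega)]
  · intro g h hg hh
    apply Equiv.ext
    intro x
    funext i
    show T (g * h) x i = T g (T h x) i
    rw [htr _ (tri_mul hg hh) x i, htr g hg (T h x) i]
    split_ifs with hi
    · exact agree hg (k := k) (x := h x) (y := T h x)
        (fun j hj => by rw [htr h hh x j, if_pos hj]) i hi
    · rw [htr h hh x i, if_neg hi]
  · intro g h hg hh
    apply Equiv.ext
    intro x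
    funext i
    rw [hh x i, htr g hg x i]
  · intro g hg
    constructor
    · intro h1 x i hi
      have h2 := htr g hg x i
      rw [h1, if_pos hi] at h2
      exact h2.symm
    · intro h1
      apply Equiv.ext
      intro x
      funext i
      rw [htr g hg x i]
      split_ifs with hi
      · exact h1 x i hi
      · rfl
  · intro g hg f hf x
    exact U_low hf (fun j hj => by rw [htr g hg x j, if_pos hj])
  · intro g d hg hd
    exact dep_trunc (htr g hg) hd

end Pool.Agent.W654.SGT
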