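import Mathlib

/-!
# Countable approximations of precompact Boolean groups: definitions

A `Side ι` is a countable piece of a Boolean group `ι →₀ ZMod 2` (the elements supported in `D`),
with countably many characters (named by the elements of `ι →₀ ZMod 2` supported in `L`, and given
by the matrix `c`), together with an increasing sequence `M` of subgroups on which the topology is
frozen.
-/

set_option autoImplicit false

namespace Pool.Agent.W654.SG

abbrev K := ZMod 2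

lemma K_cases (x : K) : x = 0 ∨ x = 1 := by revert x; decide

lemma K_ne {x : K} (h : x ≠ 0) : x = 1 := (K_cases x).resolve_left h

lemma K_add_self (x : K) : x + x = 0 := by revert x; decide

variable {ι : Type}

lemma V_add_self (x : ι →₀ K) : x + x = 0 := by
  ext i
  simp [K_add_self]

lemma V_neg (x : ι →₀ K) : -x = x := by
  rw [neg_eq_iff_add_eq_zero, V_add_self]

lemma V_sub (x y : ι →₀ K) : x - y = x + y := by rw [sub_eq_add_neg, V_neg]

/-- the pairing of the names of characters with the elements, given by a matrix -/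
noncomputable def B (c : ι → ι → K) : (ι →₀ K) →ₗ[K] (ι →₀ K) →ₗ[K] K :=
  Finsupp.linearCombination K (fun l => Finsupp.linearCombination K (c l))

lemma B_apply (c : ι → ι → K) (l v : ι →₀ K) :
    B c l v = l.sum fun i s => s * v.sum fun a t => t * c i a := by
  simp [B, Finsupp.linearCombination_apply, Finsupp.sum, LinearMap.sum_apply]

lemma B_single (c : ι → ι → K) (i : ι) :
    B c (Finsupp.single i 1) = Finsupp.linearCombination K (c i) := by
  simp [B]

lemma B_single_single (c : ι → ι → K) (i a : ι) :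
    B c (Finsupp.single i 1) (Finsupp.single a 1) = c i a := by
  simp [B]

lemma B_congr {c c' : ι → ι → K} {L D : Set ι} (h : ∀ l ∈ L, ∀ a ∈ D, c' l a = c l a)
    {l v : ι →₀ K} (hl : l ∈ Finsupp.supported K K L) (hv : v ∈ Finsupp.supported K K D) :
    B c' l v = B c l v := by
  have hl : ↑l.support ⊆ L := hl
  have hv : ↑v.support ⊆ D := hv
  rw [B_apply, B_apply]
  simp only [Finsupp.sum]
  refine Finset.sum_congr rfl fun i hi => ?_
  have : ∑ a ∈ v.support, v a * c' i a = ∑ a ∈ v.support, v a * c i a :=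
    Finset.sum_congr rfl fun a ha => by rw [h i (hl hi) a (hv ha)]
  rw [this]

/-- a countable piece of the group under construction -/
structure Side (ι : Type) where
  /-- the elements -/
  D : Set ι
  /-- the names of the characters -/
  L : Set ι
  /-- the values of the characters -/
  c : ι → ι → K
  /-- the frozen subgroups -/
  M : ℕ → Submodule K (ι →₀ K)

namespace Side

variable (s : Side ι)

def V : Submodule K (ι →₀ K) := Finsupp.supported K K s.D

def X : Submodule K (ι →₀ K) := Finsupp.supported K K s.L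

noncomputable def b : (ι →₀ K) →ₗ[K] (ι →₀ K) →ₗ[K] K := B s.c

/-- `N` is closed in `s` -/
def IsCl (N : Submodule K (ι →₀ K)) : Prop :=
  ∀ y ∈ s.V, y ∉ N → ∃ l ∈ s.X, (∀ m ∈ N, s.b l m = 0) ∧ s.b l y ≠ 0

/-- the frozen functionals -/
def InR (χ : (ι →₀ K) →ₗ[K] K) : Prop := ∀ j, ∃ l ∈ s.X, ∀ m ∈ s.M j, χ m = s.b l m

end Side

variable (u : ℕ × ℕ → ι →₀ K)

/-- the requirements on a single side -/
structure Side.OK (s : Side ι) : Prop where
  Dc : s.D.Countable
  Lc : s.L.Countable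
  Mle : ∀ j, s.M j ≤ s.V
  mono : Monotone s.M
  cov : ∀ v ∈ s.V, ∃ j, v ∈ s.M j
  sep : ∀ v ∈ s.V, v ≠ 0 → ∃ l ∈ s.X, s.b l v ≠ 0
  closed : ∀ j, s.IsCl (s.M j)
  base : ∀ p, u p ∈ s.V
  LI : ∀ j n, ∃ P : Finset (ℕ × ℕ), ∀ F : Finset (ℕ × ℕ), F.card ≤ n →
    ∑ p ∈ F, u p ∈ s.M j → ∀ p ∈ F, p ∈ P ∨ u p ∈ s.M j

/-- extension of sides -/
structure Ext (s t : Side ι) : Prop where
  D : s.D ⊆ t.D
  L : s.L ⊆ t.L
  c : ∀ l ∈ s.L, ∀ a ∈ s.D, t.c l a = s.c l a
  M : ∀ j, ∃ k, s.M j ≤ t.M k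
  R : ∀ l ∈ t.X, s.InR (t.b l)

/-- a set of points of the grid which is separated from the origin -/
def Good (s t : Side ι) (P : Set (ℕ × ℕ)) : Prop :=
  ∃ (E F : Finset (ι →₀ K)) (k : ℕ), (∀ l ∈ E, l ∈ s.X) ∧ (∀ l ∈ F, l ∈ t.X) ∧
    ∀ p ∈ P, k ≤ p.1 → (∃ l ∈ E, s.b l (u p) ≠ 0) ∨ (∃ l ∈ F, t.b l (u p) ≠ 0)

/-- the requirements on a pair of sides -/
structure PairOK (s t : Side ι) : Prop where
  ok₁ : s.OK u
  ok₂ : t.OK u
  J₁ : ∀ j, Good u s t {p | u p ∈ s.M j}
  J₂ : ∀ j, Good u s t {p | u p ∈ t.M j}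

/-- the sequence `a` converges to `x`, and this is frozen -/
def Conv (s : Side ι) (a : ℕ → ι →₀ K) (x : ι →₀ K) : Prop :=
  ∃ j, x ∈ s.M j ∧ (∀ i, a i ∈ s.M j) ∧ ∀ l ∈ s.X, ∀ᶠ i in Filter.atTop, s.b l (a i) = s.b l x

section basic

variable {u} {s t w : Side ι}

lemma Ext.V (h : Ext s t) : s.V ≤ t.V := Finsupp.supported_mono h.D

lemma Ext.X (h : Ext s t) : s.X ≤ t.X := Finsupp.supported_mono h.L

lemma Ext.b (h : Ext s t) {l v : ι →₀ K} (hl : l ∈ s.X) (hv : v ∈ s.V) : t.b l v = s.b l v :=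
  B_congr h.c hl hv

lemma Ext.refl (s : Side ι) : Ext s s :=
  ⟨subset_rfl, subset_rfl, fun _ _ _ _ => rfl, fun j => ⟨j, le_rfl⟩,
    fun l hl _ => ⟨l, hl, fun _ _ => rfl⟩⟩

lemma Ext.trans (h : Ext s t) (h' : Ext t w) : Ext s w where
  D := h.D.trans h'.D
  L := h.L.trans h'.L
  c := fun l hl a ha => by rw [h'.c l (h.L hl) a (h.D ha), h.c l hl a ha]
  M := fun j => by
    obtain ⟨k, hk⟩ := h.M j
    obtain ⟨k', hk'⟩ := h'.M k
    exact ⟨k', hk.trans hk'⟩
  R := fun l hl j => by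
    obtain ⟨k, hk⟩ := h.M j
    obtain ⟨l', hl', h1⟩ := h'.R l hl k
    obtain ⟨l'', hl'', h2⟩ := h.R l' hl' j
    exact ⟨l'', hl'', fun m hm => by rw [h1 m (hk hm), h2 m hm]⟩

lemma Conv.ext {a : ℕ → ι →₀ K} {x : ι →₀ K} (h : Conv s a x) (e : Ext s t) : Conv t a x := by
  obtain ⟨j, h1, h2, h3⟩ := h
  obtain ⟨k, hk⟩ := e.M j
  refine ⟨k, hk h1, fun i => hk (h2 i), fun l hl => ?_⟩
  obtain ⟨l', hl', h4⟩ := e.R l hl j
  filter_upwards [h3 l' hl'] with i hi
  rw [h4 _ (h2 i), h4 _ h1, hi]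

lemma Good.mono {P Q : Set (ℕ × ℕ)} (h : Good u s t P) (hQ : Q ⊆ P) : Good u s t Q := by
  obtain ⟨E, F, k, h1, h2, h3⟩ := h
  exact ⟨E, F, k, h1, h2, fun p hp => h3 p (hQ hp)⟩

lemma Good.union {P Q : Set (ℕ × ℕ)} (h : Good u s t P) (h' : Good u s t Q) :
    Good u s t (P ∪ Q) := by
  classical
  obtain ⟨E, F, k, h1, h2, h3⟩ := h
  obtain ⟨E', F', k', h1', h2', h3'⟩ := h'
  refine ⟨E ∪ E', F ∪ F', max k k', fun l hl => ?_, fun l hl => ?_, fun p hp hk => ?_⟩
  · rcases Finset.mem_union.1 hl with h | h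
    exacts [h1 l h, h1' l h]
  · rcases Finset.mem_union.1 hl with h | h
    exacts [h2 l h, h2' l h]
  · rcases hp with hp | hp
    · rcases h3 p hp (le_trans (le_max_left _ _) hk) with ⟨l, hl, h⟩ | ⟨l, hl, h⟩
      · exact Or.inl ⟨l, Finset.mem_union_left _ hl, h⟩
      · exact Or.inr ⟨l, Finset.mem_union_left _ hl, h⟩
    · rcases h3' p hp (le_trans (le_max_right _ _) hk) with ⟨l, hl, h⟩ | ⟨l, hl, h⟩
      · exact Or.inl ⟨l, Finset.mem_union_right _ hl, h⟩
      · exact Or.inr ⟨l, Finset.mem_union_right _ hl, h⟩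

lemma Good.empty : Good u s t ∅ :=
  ⟨∅, ∅, 0, by simp, by simp, by simp⟩

lemma Good.swap {P : Set (ℕ × ℕ)} (h : Good u s t P) : Good u t s P := by
  obtain ⟨E, F, k, h1, h2, h3⟩ := h
  exact ⟨F, E, k, h2, h1, fun p hp hk => (h3 p hp hk).symm⟩

lemma Good.ext {s' t' : Side ι} {P : Set (ℕ × ℕ)} (h : Good u s t P) (hs : ∀ p, u p ∈ s.V)
    (ht : ∀ p, u p ∈ t.V) (e : Ext s s') (e' : Ext t t') : Good u s' t' P := by
  obtain ⟨E, F, k, h1, h2, h3⟩ := h
  refine ⟨E, F, k, fun l hl => e.X (h1 l hl), fun l hl => e'.X (h2 l hl), fun p hp hk => ?_⟩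
  rcases h3 p hp hk with ⟨l, hl, h⟩ | ⟨l, hl, h⟩
  · exact Or.inl ⟨l, hl, by rwa [e.b (h1 l hl) (hs p)]⟩
  · exact Or.inr ⟨l, hl, by rwa [e'.b (h2 l hl) (ht p)]⟩

lemma PairOK.swap (h : PairOK u s t) : PairOK u t s :=
  ⟨h.ok₂, h.ok₁, fun j => (h.J₂ j).swap, fun j => (h.J₁ j).swap⟩

end basic

/-! ### Closed subgroups -/

section closed

variable {s : Side ι}

lemma mem_sup_span_singleton {N : Submodule K (ι →₀ K)} {z y : ι →₀ K} :
    y ∈ N ⊔ Submodule.span K {z} ↔ y ∈ N ∨ y + z ∈ N := by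
  rw [Submodule.mem_sup]
  constructor
  · rintro ⟨n, hn, w, hw, rfl⟩
    obtain ⟨t, rfl⟩ := Submodule.mem_span_singleton.1 hw
    rcases K_cases t with rfl | rfl
    · left; simpa using hn
    · right
      rw [one_smul, add_assoc, V_add_self, add_zero]
      exact hn
  · rintro (h | h)
    · exact ⟨y, h, 0, Submodule.zero_mem _, add_zero y⟩
    · refine ⟨y + z, h, z, Submodule.mem_span_singleton_self z, ?_⟩
      rw [add_assoc, V_add_self, add_zero]

lemma IsCl.insert {N : Submodule K (ι →₀ K)} (h : s.IsCl N) {z : ι →₀ K} (hz : z ∈ s.V) :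
    s.IsCl (N ⊔ Submodule.span K {z}) := by
  intro y hy hyN
  rw [mem_sup_span_singleton, not_or] at hyN
  obtain ⟨l₁, hl₁, h1, h1'⟩ := h y hy hyN.1
  obtain ⟨l₂, hl₂, h2, h2'⟩ := h (y + z) (add_mem hy hz) hyN.2
  have key : ∀ l ∈ s.X, (∀ m ∈ N, s.b l m = 0) → s.b l z = 0 →
      ∀ m ∈ N ⊔ Submodule.span K {z}, s.b l m = 0 := by
    intro l _ h0 hz0 m hm
    rw [mem_sup_span_singleton] at hm
    rcases hm with hm | hm
    · exact h0 m hm
    · have := h0 _ hm
      rw [map_add, hz0, add_zero] at this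
      exact this
  rcases K_cases (s.b l₁ z) with hz1 | hz1
  · exact ⟨l₁, hl₁, key l₁ hl₁ h1 hz1, h1'⟩
  rcases K_cases (s.b l₂ z) with hz2 | hz2
  · refine ⟨l₂, hl₂, key l₂ hl₂ h2 hz2, ?_⟩
    rwa [map_add, hz2, add_zero] at h2'
  · have e1 := K_ne h1'
    have e2 := K_ne h2'
    rw [map_add, hz2] at e2
    have e3 : s.b l₂ y = 0 := by
      have := congrArg (· + (1 : K)) e2
      simp only [add_assoc, K_add_self] at this
      simpa using this
    refine ⟨l₁ + l₂, add_mem hl₁ hl₂, key _ (add_mem hl₁ hl₂) (fun m hm => ?_) ?_, ?_⟩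
    · rw [map_add, LinearMap.add_apply, h1 m hm, h2 m hm, add_zero]
    · rw [map_add, LinearMap.add_apply, hz1, hz2, K_add_self]
    · rw [map_add, LinearMap.add_apply, e1, e3, add_zero]
      exact one_ne_zero

lemma IsCl.sup_span {N : Submodule K (ι →₀ K)} (h : s.IsCl N) (S : Finset (ι →₀ K))
    (hS : ∀ z ∈ S, z ∈ s.V) : s.IsCl (N ⊔ Submodule.span K (S : Set (ι →₀ K))) := by
  classical
  induction S using Finset.induction_on with
  | empty => simpa using h
  | insert a S _ ih =>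
    have h1 := ih fun z hz => hS z (Finset.mem_insert_of_mem hz)
    have h2 := IsCl.insert h1 (hS a (Finset.mem_insert_self a S))
    rw [Finset.coe_insert, Submodule.span_insert, sup_comm (Submodule.span K {a}), ← sup_assoc]
    exact h2

lemma IsCl.sup_fg {N Y : Submodule K (ι →₀ K)} (h : s.IsCl N) (hY : Y.FG) (hYV : Y ≤ s.V) :
    s.IsCl (N ⊔ Y) := by
  obtain ⟨S, rfl⟩ := hY
  exact IsCl.sup_span h S fun z hz => hYV (Submodule.subset_span hz)

/-- interpolation: a functional on a finite subgroup which is independent of a closed subgroup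
is given by a character vanishing on the closed subgroup -/
lemma interp {N Y : Submodule K (ι →₀ K)} (h : s.IsCl N) (hY : Y.FG) (hYV : Y ≤ s.V)
    (hd : ∀ y ∈ Y, y ∈ N → y = 0) (η : (ι →₀ K) →ₗ[K] K) :
    ∃ l ∈ s.X, (∀ m ∈ N, s.b l m = 0) ∧ ∀ y ∈ Y, s.b l y = η y := by
  by_cases h0 : ∀ y ∈ Y, η y = 0
  · exact ⟨0, Submodule.zero_mem _, by simp, fun y hy => by simp [h0 y hy]⟩
  push Not at h0
  obtain ⟨y₀, hy₀, hη⟩ := h0
  have hη1 := K_ne hη
  have : IsNoetherian K Y := isNoetherian_of_fg_of_noetherian Y hY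
  have hY' : (Y ⊓ LinearMap.ker η).FG := Submodule.FG.of_le_of_isNoetherian (T := Y) inf_le_left
  have hcl := IsCl.sup_fg h hY' (inf_le_left.trans hYV)
  have hn : y₀ ∉ N ⊔ (Y ⊓ LinearMap.ker η) := by
    intro hc
    obtain ⟨n, hn, y, hy, hny⟩ := Submodule.mem_sup.1 hc
    have h1 : n ∈ Y := by
      have : n = y₀ + y := by rw [← hny, add_assoc, V_add_self, add_zero]
      rw [this]
      exact add_mem hy₀ hy.1
    have h2 := hd n h1 hn
    rw [h2, zero_add] at hny
    apply hη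
    rw [← hny]
    exact hy.2
  obtain ⟨l, hl, h1, h2⟩ := hcl y₀ (hYV hy₀) hn
  have h2' := K_ne h2
  refine ⟨l, hl, fun m hm => h1 m (Submodule.mem_sup_left hm), fun y hy => ?_⟩
  rcases K_cases (η y) with hy1 | hy1
  · rw [hy1]
    exact h1 y (Submodule.mem_sup_right ⟨hy, hy1⟩)
  · have h3 : s.b l (y + y₀) = 0 := by
      refine h1 _ (Submodule.mem_sup_right ⟨add_mem hy hy₀, ?_⟩)
      change η (y + y₀) = 0
      rw [map_add, hy1, hη1, K_add_self]
    rw [map_add, h2'] at h3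
    rw [hy1]
    have := congrArg (· + (1 : K)) h3
    simp only [add_assoc, K_add_self] at this
    simpa using this

end closed

end Pool.Agent.W654.SG
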