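import Pool.Agent.Helper292.ForceCH
import Pool.Agent.W654.SG.Basic

/-!
# Diamond and closing off
-/

set_option autoImplicit false

namespace Pool.Agent.W654.SG

open Cardinal

open Pool.Agent.Helper292.ForceCH (Om countable_Iio exists_bound ub lt_ub ub_le)

/-- `C` is a closed unbounded subset of `ω₁` (the sentence named by `IsClubName`) -/
def IsClub (C : Om → Prop) : Prop :=
  (∀ a : Om, ∃ b : Om, a < b ∧ C b) ∧
    ∀ a : Om, (∃ b, b < a) → (∀ b : Om, b < a → ∃ c : Om, (b < c ∧ c < a) ∧ C c) → C a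

/-- Jensen's diamond: the sentence which `DiamondHolds P` says is forced, evaluated in the
universe -/
def Diamond : Prop :=
  ∃ A : Om → Om → Prop, ∀ S : Om → Prop, ∀ C : Om → Prop,
    IsClub C → ∃ a : Om, C a ∧ ∀ b : Om, b < a → (S b ↔ A a b)

lemma exists_bound_of_countable {T : Type} [Countable T] (f : T → Om) : ∃ a : Om, ∀ x, f x < a := by
  rcases isEmpty_or_nonempty T with h | h
  · exact ⟨Classical.arbitrary Om, fun x => (h.false x).elim⟩
  · obtain ⟨g, hg⟩ := exists_surjective_nat T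
    obtain ⟨a, ha⟩ := exists_bound fun n => f (g n)
    refine ⟨a, fun x => ?_⟩
    obtain ⟨n, rfl⟩ := hg x
    exact ha n

instance : Uncountable Om := by
  rw [← not_countable_iff]
  intro h
  obtain ⟨a, ha⟩ := exists_bound_of_countable (fun x : Om => x)
  exact lt_irrefl _ (ha a)

/-- the closure points of a function form a closed unbounded set -/
lemma isClub_closed (F : Om → Om) : IsClub fun δ => (∃ β, β < δ) ∧ ∀ β < δ, F β < δ := by
  constructor
  · intro a
    have step : ∀ x : Om, ∃ y : Om, x < y ∧ ∀ β ≤ x, F β < y := by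
      intro x
      have := countable_Iio x
      obtain ⟨y, hy⟩ := exists_bound_of_countable
        (fun z : Option {b : Om // b < x} ⊕ Unit => match z with
          | Sum.inl none => F x
          | Sum.inl (some b) => F b
          | Sum.inr _ => x)
      refine ⟨y, hy (Sum.inr ()), fun β hβ => ?_⟩
      rcases hβ.lt_or_eq with h | h
      · exact hy (Sum.inl (some ⟨β, h⟩))
      · rw [h]; exact hy (Sum.inl none)
    choose g hg1 hg2 using step
    obtain ⟨x, hx0, hx⟩ : ∃ x : ℕ → Om, x 0 = a ∧ ∀ n, x (n + 1) = g (x n) :=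
      ⟨fun n => Nat.rec a (fun _ y => g y) n, rfl, fun n => rfl⟩
    refine ⟨ub x, ?_, ⟨a, ?_⟩, fun β hβ => ?_⟩
    · rw [← hx0]; exact lt_ub x 0
    · rw [← hx0]; exact lt_ub x 0
    · obtain ⟨n, hn⟩ := ub_le x hβ
      refine (hg2 (x n) β hn).trans ?_
      rw [← hx]
      exact lt_ub x _
  · intro a ha h
    refine ⟨ha, fun β hβ => ?_⟩
    obtain ⟨c, ⟨h1, h2⟩, _, h3⟩ := h β hβ
    exact (h3 β h1).trans h2

lemma exists_code : ∃ e : Option (Om →₀ K) → Om, Function.Injective e := by
  have h1 : #(Option (Om →₀ K)) ≤ #Om := by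
    have h2 : #Om = ℵ₁ := by simp
    have h3 : #(Om →₀ K) = ℵ₁ := by
      rw [Cardinal.mk_finsupp_of_infinite, h2]
      have : #K ≤ ℵ₀ := Cardinal.mk_le_aleph0
      exact max_eq_left (this.trans (aleph0_le_aleph 1))
    rw [Cardinal.mk_option, h2, h3]
    exact (Cardinal.add_one_eq (aleph0_le_aleph 1)).le
  obtain ⟨e⟩ := h1
  exact ⟨e, e.injective⟩

/-- the diamond sequence guesses subsets of the group together with a bit -/
lemma exists_guess (h : Diamond) : ∃ (A : Om → Set (Om →₀ K)) (b : Om → Bool)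
    (e : (Om →₀ K) → Om), ∀ (S : Set (Om →₀ K)) (c : Bool) (F : Om → Om),
      ∃ δ, (∃ β, β < δ) ∧ (∀ β < δ, F β < δ) ∧ b δ = c ∧ ∀ v, e v < δ → (v ∈ A δ ↔ v ∈ S) := by
  classical
  obtain ⟨A, hA⟩ := h
  obtain ⟨e, he⟩ := exists_code
  refine ⟨fun δ => {v | A δ (e (some v))}, fun δ => decide (A δ (e none)), fun v => e (some v),
    fun S c F => ?_⟩
  obtain ⟨δ, ⟨h1, h2⟩, h3⟩ := hA
    (fun x => (∃ v ∈ S, e (some v) = x) ∨ (c = true ∧ x = e none))
    (fun δ => (∃ β, β < δ) ∧ ∀ β < δ, max (F β) (e none) < δ)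
    (isClub_closed fun β => max (F β) (e none))
  refine ⟨δ, h1, fun β hβ => (le_max_left _ _).trans_lt (h2 β hβ), ?_, fun v hv => ?_⟩
  · obtain ⟨β, hβ⟩ := h1
    have h4 := h3 (e none) ((le_max_right _ _).trans_lt (h2 β hβ))
    have h5 : ¬ ∃ v ∈ S, e (some v) = e none := by
      rintro ⟨v, _, hv⟩
      have := he hv
      simp at this
    cases c with
    | true =>
      simp only [decide_eq_true_eq]
      exact h4.1 (Or.inr ⟨rfl, rfl⟩)
    | false =>
      simp only [decide_eq_false_iff_not]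
      intro hc
      rcases h4.2 hc with h | h
      · exact h5 h
      · exact absurd h.1 (by simp)
  · change A δ (e (some v)) ↔ v ∈ S
    rw [← h3 _ hv]
    constructor
    · rintro (⟨w, hw, hwv⟩ | ⟨_, hc⟩)
      · have := he hwv
        rw [Option.some_injective _ this] at hw
        exact hw
      · have := he hc
        simp at this
    · exact fun h => Or.inl ⟨v, h, rfl⟩

end Pool.Agent.W654.SG
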