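import Pool.Agent.W654.SG.Rec

/-!
# The group of one side
-/

set_option autoImplicit false

namespace Pool.Agent.W654.SG

open Filter Topology

open Pool.Agent.Helper292.ForceCH (Om countable_Iio exists_bound ub lt_ub ub_le)

/-- the union of the stages of one side -/
noncomputable def fin (p : Om → Side Om) : Side Om where
  D := ⋃ δ, (p δ).D
  L := ⋃ δ, (p δ).L
  c := fun l a => open Classical in
    if h : ∃ δ, l ∈ (p δ).L ∧ a ∈ (p δ).D then (p h.choose).c l a else 0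
  M := fun _ => ⊥

/-- the elements as functions on the set of the names of characters -/
noncomputable def Phi (p : Om → Side Om) : (Om →₀ K) →ₗ[K] (Om → K) :=
  LinearMap.pi fun l => (fin p).b (Finsupp.single l 1)

/-- the topological group of one side -/
noncomputable def GG (p : Om → Side Om) : AddSubgroup (Om → K) :=
  ((fin p).V.map (Phi p)).toAddSubgroup

section

variable {p : Om → Side Om}

lemma Phi_apply (v : Om →₀ K) (l : Om) : Phi p v l = (fin p).b (Finsupp.single l 1) v := rfl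

lemma mem_GG {x : Om → K} : x ∈ GG p ↔ ∃ v ∈ (fin p).V, Phi p v = x := Iff.rfl

lemma b_eq_sum (l v : Om →₀ K) : (fin p).b l v = l.sum fun i s => s * Phi p v i := by
  have h : ∀ i, Phi p v i = v.sum fun a t => t * (fin p).c i a := by
    intro i
    rw [Phi_apply, Side.b, B_apply, Finsupp.sum_single_index (by simp), one_mul]
  simp only [h]
  rw [Side.b, B_apply]

/-- the coherence of the stages -/
def Coh (p : Om → Side Om) : Prop := ∀ β δ, β < δ → Ext (p β) (p δ)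

lemma Coh.le (hp : Coh p) {β δ : Om} (h : β ≤ δ) : Ext (p β) (p δ) := by
  rcases h.lt_or_eq with h | h
  · exact hp β δ h
  · rw [h]; exact Ext.refl _

lemma fin_c (hp : Coh p) (δ : Om) : ∀ l ∈ (p δ).L, ∀ a ∈ (p δ).D, (fin p).c l a = (p δ).c l a := by
  classical
  intro l hl a ha
  have hex : ∃ δ, l ∈ (p δ).L ∧ a ∈ (p δ).D := ⟨δ, hl, ha⟩
  have h1 : (fin p).c l a = (p hex.choose).c l a := dif_pos hex
  rw [h1]
  obtain ⟨h2, h3⟩ := hex.choose_spec
  rcases le_total hex.choose δ with hn | hn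
  · exact ((hp.le hn).c l h2 a h3).symm
  · exact (hp.le hn).c l hl a ha

lemma fin_b (hp : Coh p) {δ : Om} {l v : Om →₀ K} (hl : l ∈ (p δ).X) (hv : v ∈ (p δ).V) :
    (fin p).b l v = (p δ).b l v := B_congr (fin_c hp δ) hl hv

lemma V_le_fin (p : Om → Side Om) (δ : Om) : (p δ).V ≤ (fin p).V :=
  Finsupp.supported_mono (Set.subset_iUnion (fun δ => (p δ).D) δ)

lemma X_le_fin (p : Om → Side Om) (δ : Om) : (p δ).X ≤ (fin p).X :=
  Finsupp.supported_mono (Set.subset_iUnion (fun δ => (p δ).L) δ)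

/-- finitely many indices below `δ` have a common bound below `δ` -/
lemma finset_bound {T : Type} (S : Finset T) (P : T → Om → Prop)
    (hP : ∀ x, ∀ β γ, β ≤ γ → P x β → P x γ) {δ : Om} (hδ : ∃ β, β < δ)
    (h : ∀ x ∈ S, ∃ β < δ, P x β) : ∃ β < δ, ∀ x ∈ S, P x β := by
  classical
  induction S using Finset.induction_on with
  | empty =>
    obtain ⟨β, hβ⟩ := hδ
    exact ⟨β, hβ, by simp⟩
  | insert a S _ ih =>
    obtain ⟨β, hβ, h1⟩ := ih fun x hx => h x (Finset.mem_insert_of_mem hx)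
    obtain ⟨γ, hγ, h2⟩ := h a (Finset.mem_insert_self a S)
    refine ⟨max β γ, max_lt hβ hγ, fun x hx => ?_⟩
    rcases Finset.mem_insert.1 hx with rfl | hx
    · exact hP _ _ _ (le_max_right _ _) h2
    · exact hP _ _ _ (le_max_left _ _) (h1 x hx)

lemma exists_top (S : Finset Om) (P : Om → Om → Prop)
    (hP : ∀ x, ∀ β γ, β ≤ γ → P x β → P x γ) (h : ∀ x ∈ S, ∃ β, P x β) :
    ∃ β, ∀ x ∈ S, P x β := by
  classical
  induction S using Finset.induction_on with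
  | empty => exact ⟨Classical.arbitrary Om, by simp⟩
  | insert a S _ ih =>
    obtain ⟨β, h1⟩ := ih fun x hx => h x (Finset.mem_insert_of_mem hx)
    obtain ⟨γ, h2⟩ := h a (Finset.mem_insert_self a S)
    refine ⟨max β γ, fun x hx => ?_⟩
    rcases Finset.mem_insert.1 hx with rfl | hx
    · exact hP _ _ _ (le_max_right _ _) h2
    · exact hP _ _ _ (le_max_left _ _) (h1 x hx)

lemma exists_V (hp : Coh p) {v : Om →₀ K} (hv : v ∈ (fin p).V) : ∃ δ, v ∈ (p δ).V := by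
  have hv' : (v.support : Set Om) ⊆ ⋃ δ, (p δ).D := hv
  obtain ⟨δ, hδ⟩ := exists_top v.support (fun a δ => a ∈ (p δ).D)
    (fun a β γ h ha => (hp.le h).D ha) fun a ha => Set.mem_iUnion.1 (hv' ha)
  exact ⟨δ, fun a ha => hδ a ha⟩

lemma exists_X (hp : Coh p) {v : Om →₀ K} (hv : v ∈ (fin p).X) : ∃ δ, v ∈ (p δ).X := by
  have hv' : (v.support : Set Om) ⊆ ⋃ δ, (p δ).L := hv
  obtain ⟨δ, hδ⟩ := exists_top v.support (fun a δ => a ∈ (p δ).L)
    (fun a β γ h ha => (hp.le h).L ha) fun a ha => Set.mem_iUnion.1 (hv' ha)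
  exact ⟨δ, fun a ha => hδ a ha⟩

lemma tendsto_Phi_iff {a : ℕ → Om →₀ K} {x : Om →₀ K} :
    Tendsto (fun i => Phi p (a i)) atTop (𝓝 (Phi p x)) ↔
      ∀ l, ∀ᶠ i in atTop, Phi p (a i) l = Phi p x l := by
  rw [tendsto_pi_nhds]
  refine forall_congr' fun l => ?_
  rw [nhds_discrete, tendsto_pure]

lemma Phi_zero_of_notMem {l : Om} (hl : l ∉ (fin p).L) (v : Om →₀ K) : Phi p v l = 0 := by
  classical
  rw [Phi_apply, Side.b, B_apply, Finsupp.sum_single_index (by simp), one_mul]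
  refine Finset.sum_eq_zero fun a _ => ?_
  have h1 : (fin p).c l a = 0 := dif_neg fun ⟨δ, h, _⟩ => hl (Set.mem_iUnion.2 ⟨δ, h⟩)
  simp [h1]

lemma tendsto_of_conv (hp : Coh p) (ok : ∀ δ, ∀ j, (p δ).M j ≤ (p δ).V) {δ : Om}
    {a : ℕ → Om →₀ K} {x : Om →₀ K} (h : Conv (p δ) a x) :
    Tendsto (fun i => Phi p (a i)) atTop (𝓝 (Phi p x)) := by
  rw [tendsto_Phi_iff]
  intro l
  by_cases hl : l ∈ (fin p).L
  · obtain ⟨γ, hγ⟩ := Set.mem_iUnion.1 hl
    obtain ⟨j, h1, h2, h3⟩ := h.ext (hp.le (le_max_left δ γ))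
    have hl' : Finsupp.single l (1 : K) ∈ (p (max δ γ)).X :=
      Finsupp.single_mem_supported K _ ((hp.le (le_max_right δ γ)).L hγ)
    filter_upwards [h3 _ hl'] with i hi
    rw [Phi_apply, Phi_apply, fin_b hp hl' (ok _ _ (h2 i)), fin_b hp hl' (ok _ _ h1)]
    exact hi
  · exact Eventually.of_forall fun i => by rw [Phi_zero_of_notMem hl, Phi_zero_of_notMem hl]

lemma eventually_b {a : ℕ → Om →₀ K} {x : Om →₀ K}
    (h : Tendsto (fun i => Phi p (a i)) atTop (𝓝 (Phi p x))) (l : Om →₀ K) :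
    ∀ᶠ i in atTop, (fin p).b l (a i) = (fin p).b l x := by
  rw [tendsto_Phi_iff] at h
  have h1 : ∀ᶠ i in atTop, ∀ m ∈ l.support, Phi p (a i) m = Phi p x m := by
    rw [Filter.eventually_all_finset]
    exact fun m _ => h m
  filter_upwards [h1] with i hi
  rw [b_eq_sum, b_eq_sum]
  refine Finset.sum_congr rfl fun m hm => ?_
  simp only
  rw [hi m hm]

end

/-- the data of one side of a run -/
structure Run1 (u : ℕ × ℕ → Om →₀ K) (A : Om → Set (Om →₀ K)) (b : Om → Bool) (bit : Bool)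
    (q p : Om → Side Om) : Prop where
  okq : ∀ δ, (q δ).OK u
  okp : ∀ δ, (p δ).OK u
  le : ∀ β δ, β < δ → Ext (p β) (q δ)
  qp : ∀ δ, Ext (q δ) (p δ)
  D : ∀ δ, (∃ β, β < δ) → (q δ).D = ⋃ β, ⋃ _ : β < δ, (p β).D
  L : ∀ δ, (∃ β, β < δ) → (q δ).L = ⋃ β, ⋃ _ : β < δ, (p β).L
  null : ∀ δ, b δ = bit → HNull (q δ) (p δ) (A δ)
  conv : ∀ δ, HConv (q δ) (p δ) (A δ)

/-- the guessing principle -/
def Guessing (A : Om → Set (Om →₀ K)) (b : Om → Bool) (e : (Om →₀ K) → Om) : Prop :=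
  ∀ (S : Set (Om →₀ K)) (c : Bool) (F : Om → Om),
      ∃ δ, (∃ β, β < δ) ∧ (∀ β < δ, F β < δ) ∧ b δ = c ∧ ∀ v, e v < δ → (v ∈ A δ ↔ v ∈ S)

section

variable {u : ℕ × ℕ → Om →₀ K} {A : Om → Set (Om →₀ K)} {b : Om → Bool} {bit : Bool}
  {q p : Om → Side Om} {e : (Om →₀ K) → Om}

lemma Run1.coh (R : Run1 u A b bit q p) : Coh p := fun β δ h => (R.le β δ h).trans (R.qp δ)

/-- a function whose closure points are good for the code -/
lemma Run1.exists_F (R : Run1 u A b bit q p) (e : (Om →₀ K) → Om) :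
    ∃ F : Om → Om, ∀ δ, (∃ β, β < δ) → (∀ β < δ, F β < δ) → ∀ v ∈ (q δ).V, e v < δ := by
  have h1 : ∀ β, ∃ a, ∀ v ∈ (p β).V, e v < a := by
    intro β
    have := countable_V (R.okp β).Dc
    obtain ⟨a, ha⟩ := exists_bound_of_countable fun v : (p β).V => e v
    exact ⟨a, fun v hv => ha ⟨v, hv⟩⟩
  choose F hF using h1
  refine ⟨F, fun δ hδ hc v hv => ?_⟩
  have hv' : (v.support : Set Om) ⊆ (q δ).D := hv
  rw [R.D δ hδ] at hv'
  obtain ⟨β, hβ, h2⟩ := finset_bound v.support (fun a β => a ∈ (p β).D)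
    (fun a β γ h ha => (R.coh.le h).D ha) hδ fun a ha => by
      obtain ⟨β, hβ, h⟩ := Set.mem_iUnion₂.1 (hv' ha)
      exact ⟨β, hβ, h⟩
  exact (hF β v fun a ha => h2 a ha).trans (hc β hβ)

/-- the origin is in the closure of `S` -/
def AccFin (p : Om → Side Om) (S : Set (Om →₀ K)) : Prop :=
  ∀ E : Finset (Om →₀ K), (∀ l ∈ E, l ∈ (fin p).X) →
    ∃ a ∈ S, a ∈ (fin p).V ∧ ∀ l ∈ E, (fin p).b l a = 0

lemma Run1.exists_null (R : Run1 u A b bit q p) (hG : Guessing A b e) {S : Set (Om →₀ K)}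
    (hS : AccFin p S) :
    ∃ (δ : Om) (a : ℕ → Om →₀ K), (∀ i, a i ∈ S) ∧ (∀ i, a i ∈ (p δ).V) ∧ Conv (p δ) a 0 := by
  classical
  have hcoh := R.coh
  have h1 : ∀ (β : Om) (E : Finset (p β).X), ∃ (a : Om →₀ K) (γ : Om), a ∈ S ∧ a ∈ (p γ).V ∧
      ∀ l ∈ E, (fin p).b l a = 0 := by
    intro β E
    obtain ⟨a, ha1, ha2, ha3⟩ := hS (E.image Subtype.val) (by
      intro l hl
      obtain ⟨l', _, rfl⟩ := Finset.mem_image.1 hl
      exact X_le_fin p β l'.2)
    obtain ⟨γ, hγ⟩ := exists_V hcoh ha2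
    exact ⟨a, γ, ha1, hγ, fun l hl => ha3 _ (Finset.mem_image_of_mem _ hl)⟩
  choose a γ ha1 ha2 ha3 using h1
  have h2 : ∀ β, ∃ x, ∀ E : Finset (p β).X, γ β E < x := by
    intro β
    have := countable_X (R.okp β).Lc
    exact exists_bound_of_countable fun E : Finset (p β).X => γ β E
  choose F₁ hF₁ using h2
  obtain ⟨F₂, hF₂⟩ := R.exists_F e
  obtain ⟨δ, hδ, hcl, hb, hmem⟩ := hG S bit fun β => max (F₁ β) (F₂ β)
  have hcl1 : ∀ β < δ, F₁ β < δ := fun β h => (le_max_left _ _).trans_lt (hcl β h)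
  have hcl2 : ∀ β < δ, F₂ β < δ := fun β h => (le_max_right _ _).trans_lt (hcl β h)
  have hiff : ∀ v ∈ (q δ).V, (v ∈ A δ ↔ v ∈ S) := fun v hv => hmem v (hF₂ δ hδ hcl2 v hv)
  have hacc : Acc (q δ) (A δ) := by
    intro E hE
    obtain ⟨β, hβ, h3⟩ := finset_bound E (fun l β => l ∈ (p β).X)
      (fun l β γ h hl => (hcoh.le h).X hl) hδ fun l hl => by
        have hl' : (l.support : Set Om) ⊆ (q δ).L := hE l hl
        rw [R.L δ hδ] at hl'
        obtain ⟨β, hβ, h2⟩ := finset_bound l.support (fun a β => a ∈ (p β).L)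
          (fun a β γ h ha => (hcoh.le h).L ha) hδ fun a ha => by
            obtain ⟨β, hβ, h⟩ := Set.mem_iUnion₂.1 (hl' ha)
            exact ⟨β, hβ, h⟩
        exact ⟨β, hβ, fun a ha => h2 a ha⟩
    set E' : Finset (p β).X := E.attach.image fun l => ⟨l.1, h3 l.1 l.2⟩ with hE'
    have h4 : γ β E' < δ := (hF₁ β E').trans (hcl1 β hβ)
    have h5 : a β E' ∈ (q δ).V := (R.le _ δ h4).V (ha2 β E')
    refine ⟨a β E', (hiff _ h5).2 (ha1 β E'), h5, fun l hl => ?_⟩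
    rw [← (R.qp δ).b (hE l hl) h5, ← fin_b hcoh ((R.qp δ).X (hE l hl)) ((R.qp δ).V h5)]
    refine ha3 β E' ⟨l, h3 l hl⟩ ?_
    rw [hE']
    exact Finset.mem_image.2 ⟨⟨l, hl⟩, Finset.mem_attach _ _, rfl⟩
  obtain ⟨z, hz1, hz2, hz3⟩ := R.null δ hb hacc
  exact ⟨δ, z, fun i => (hiff _ (hz2 i)).1 (hz1 i), fun i => (R.qp δ).V (hz2 i), hz3⟩

lemma Run1.exists_conv (R : Run1 u A b bit q p) (hG : Guessing A b e) {v : ℕ → Om →₀ K}
    (hv : ∀ i, v i ∈ (fin p).V) (hinf : (Set.range v).Infinite) :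
    ∃ (δ : Om) (φ : ℕ → ℕ) (x : Om →₀ K), StrictMono φ ∧ x ∈ (p δ).V ∧ Conv (p δ) (v ∘ φ) x := by
  classical
  have hcoh := R.coh
  have h1 : ∀ i, ∃ γ, v i ∈ (p γ).V := fun i => exists_V hcoh (hv i)
  choose γ hγ using h1
  obtain ⟨δ₀, hδ₀⟩ := exists_bound γ
  obtain ⟨F₂, hF₂⟩ := R.exists_F e
  obtain ⟨δ, hδ, hcl, hb, hmem⟩ := hG (Set.range v) bit fun β => max δ₀ (F₂ β)
  have hcl2 : ∀ β < δ, F₂ β < δ := fun β h => (le_max_right _ _).trans_lt (hcl β h)
  have hiff : ∀ w ∈ (q δ).V, (w ∈ A δ ↔ w ∈ Set.range v) :=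
    fun w hw => hmem w (hF₂ δ hδ hcl2 w hw)
  have hδ0 : δ₀ < δ := by
    obtain ⟨β, hβ⟩ := hδ
    exact (le_max_left _ _).trans_lt (hcl β hβ)
  have hvq : ∀ i, v i ∈ (q δ).V := fun i => (R.le _ δ ((hδ₀ i).trans hδ0)).V (hγ i)
  have hset : (Set.range v) ⊆ {a | a ∈ A δ ∧ a ∈ (q δ).V} := by
    rintro _ ⟨i, rfl⟩
    exact ⟨(hiff _ (hvq i)).2 ⟨i, rfl⟩, hvq i⟩
  obtain ⟨z, x, hz0, hz1, hz2, hz3⟩ := R.conv δ (hinf.mono hset)
  have hzr : ∀ k, ∃ i, v i = z k := fun k => (hiff _ (hz2 k)).1 (hz1 k)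
  choose idx hidx using hzr
  have hinj : Function.Injective idx := fun k k' h => hz0 (by rw [← hidx, ← hidx, h])
  have htop : Tendsto idx atTop atTop := by
    rw [← Nat.cofinite_eq_atTop]
    exact hinj.tendsto_cofinite
  obtain ⟨φ, hφ1, hφ2⟩ := strictMono_subseq_of_tendsto_atTop htop
  obtain ⟨j, h3, h4, h5⟩ := hz3
  refine ⟨δ, idx ∘ φ, x, hφ2, (R.okp δ).Mle _ h3, j, h3, fun i => ?_, fun l hl => ?_⟩
  · simp only [Function.comp, hidx]
    exact h4 _
  · have := hφ1.tendsto_atTop.eventually (h5 l hl)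
    simp only [Function.comp, hidx]
    exact this

theorem Run1.frechet (R : Run1 u A b bit q p) (hG : Guessing A b e) :
    FrechetUrysohnSpace (GG p) := by
  classical
  refine ⟨fun S x hx => ?_⟩
  obtain ⟨x, hxG⟩ := x
  obtain ⟨v₀, hv₀, rfl⟩ := mem_GG.1 hxG
  have hmemG : ∀ {w}, w ∈ (fin p).V → Phi p w ∈ GG p := fun {w} hw => ⟨w, hw, rfl⟩
  let S' : Set (Om →₀ K) := {v | v ∈ (fin p).V ∧ ∃ h : Phi p (v + v₀) ∈ GG p,
    (⟨Phi p (v + v₀), h⟩ : GG p) ∈ S}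
  have hacc : AccFin p S' := by
    intro E hE
    let ev : (Om →₀ K) → GG p → K := fun l g => l.sum fun i s => s * (g : Om → K) i
    have hev : ∀ l, Continuous (ev l) := by
      intro l
      refine continuous_finsetSum _ fun i _ => ?_
      exact (continuous_of_discreteTopology (f := fun x : K => l i * x)).comp
        ((continuous_apply i).comp continuous_subtype_val)
    have hU : IsOpen {g : GG p | ∀ l ∈ E, ev l g = ev l ⟨Phi p v₀, hxG⟩} := by
      have : {g : GG p | ∀ l ∈ E, ev l g = ev l ⟨Phi p v₀, hxG⟩} =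
          ⋂ l ∈ E, (ev l) ⁻¹' {ev l ⟨Phi p v₀, hxG⟩} := by
        ext g; simp
      rw [this]
      exact isOpen_biInter_finset fun l _ => (isOpen_discrete _).preimage (hev l)
    obtain ⟨g, hgU, hgS⟩ := mem_closure_iff.1 hx _ hU (fun l _ => rfl)
    obtain ⟨g, hgG⟩ := g
    obtain ⟨w, hw, rfl⟩ := mem_GG.1 hgG
    have hww : w + v₀ + v₀ = w := by rw [add_assoc, V_add_self, add_zero]
    refine ⟨w + v₀, ⟨add_mem hw hv₀, ?_⟩, add_mem hw hv₀, fun l hl => ?_⟩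
    · rw [hww]
      exact ⟨hmemG hw, hgS⟩
    · have h1 : (fin p).b l w = (fin p).b l v₀ := by
        rw [b_eq_sum, b_eq_sum]
        exact hgU l hl
      rw [map_add, h1, K_add_self]
  obtain ⟨δ, a, ha1, ha2, ha3⟩ := R.exists_null hG hacc
  choose h1 h2 using fun i => (ha1 i).2
  refine ⟨fun i => ⟨Phi p (a i + v₀), h1 i⟩, h2, ?_⟩
  rw [tendsto_subtype_rng]
  have h3 := (tendsto_of_conv R.coh (fun δ => (R.okp δ).Mle) ha3).add_const (Phi p v₀)
  simp only [map_zero, zero_add] at h3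
  simpa only [map_add] using h3

theorem Run1.seqCompact (R : Run1 u A b bit q p) (hG : Guessing A b e) :
    SeqCompactSpace (GG p) := by
  classical
  refine ⟨fun x _ => ?_⟩
  have hx : ∀ i, ∃ v ∈ (fin p).V, Phi p v = x i := fun i => mem_GG.1 (x i).2
  choose v hv hvx using hx
  by_cases hinf : (Set.range v).Infinite
  · obtain ⟨δ, φ, y, hφ, hy, hconv⟩ := R.exists_conv hG hv hinf
    refine ⟨⟨Phi p y, y, V_le_fin p δ hy, rfl⟩, trivial, φ, hφ, ?_⟩
    rw [tendsto_subtype_rng]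
    have h3 := tendsto_of_conv R.coh (fun δ => (R.okp δ).Mle) hconv
    simpa only [Function.comp, hvx] using h3
  · rw [Set.not_infinite] at hinf
    have h1 : ∃ w, ∃ᶠ i in atTop, v i = w := by
      by_contra hc
      push Not at hc
      have h2 : ∀ᶠ i in atTop, ∀ w ∈ hinf.toFinset, v i ≠ w := by
        rw [Filter.eventually_all_finset]
        intro w _
        have := hc w
        simpa using this
      obtain ⟨i, hi⟩ := h2.exists
      exact hi (v i) (by simp) rfl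
    obtain ⟨w, hw⟩ := h1
    obtain ⟨φ, hφ, h2⟩ := extraction_of_frequently_atTop hw
    refine ⟨x (φ 0), trivial, φ, hφ, ?_⟩
    have h3 : x ∘ φ = fun _ => x (φ 0) := by
      funext k
      apply Subtype.ext
      rw [Function.comp, ← hvx, ← hvx, h2, h2]
    rw [h3]
    exact tendsto_const_nhds

end

end Pool.Agent.W654.SG
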