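import Pool.Agent.W654.SG.Glue

/-!
# Freezing a sequence of finite subgroups
-/

set_option autoImplicit false

namespace Pool.Agent.W654.SG

variable {ι : Type} {u : ℕ × ℕ → ι →₀ K} {s t : Side ι}

lemma countable_V (h : s.D.Countable) : Countable s.V := by
  have := h.to_subtype
  exact Countable.of_equiv _ (Finsupp.supportedEquivFinsupp (M := K) (R := K) s.D).symm.toEquiv

lemma sum_symmDiff (u : ℕ × ℕ → ι →₀ K) (F G : Finset (ℕ × ℕ)) :
    ∑ p ∈ symmDiff F G, u p = ∑ p ∈ F, u p + ∑ p ∈ G, u p := by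
  classical
  have h1 : symmDiff F G = (F \ G) ∪ (G \ F) := rfl
  have h2 : Disjoint (F \ G) (G \ F) := by
    rw [Finset.disjoint_left]
    intro a ha hb
    simp only [Finset.mem_sdiff] at ha hb
    exact ha.2 hb.1
  rw [h1, Finset.sum_union h2, ← Finset.sum_inter_add_sum_sdiff F G,
    ← Finset.sum_inter_add_sum_sdiff G F, Finset.inter_comm G F]
  have h3 := V_add_self (∑ p ∈ F ∩ G, u p)
  calc ∑ x ∈ F \ G, u x + ∑ x ∈ G \ F, u x
      = ∑ x ∈ F \ G, u x + ∑ x ∈ G \ F, u x + (∑ p ∈ F ∩ G, u p + ∑ p ∈ F ∩ G, u p) := by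
        rw [h3, add_zero]
    _ = _ := by abel

/-- few short relations modulo a coset of a frozen subgroup -/
lemma LI_coset (h : s.OK u) (j n : ℕ) (g : ι →₀ K) :
    ∃ P : Finset (ℕ × ℕ), ∀ F : Finset (ℕ × ℕ), F.card ≤ n →
      ∑ p ∈ F, u p + g ∈ s.M j → ∀ p ∈ F, p ∈ P ∨ u p ∈ s.M j := by
  classical
  by_cases h0 : ∃ F₀ : Finset (ℕ × ℕ), F₀.card ≤ n ∧ ∑ p ∈ F₀, u p + g ∈ s.M j
  · obtain ⟨F₀, hc, hF₀⟩ := h0
    obtain ⟨P, hP⟩ := h.LI j (2 * n)
    refine ⟨F₀ ∪ P, fun F hF hFM p hp => ?_⟩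
    have h1 : ∑ p ∈ symmDiff F F₀, u p ∈ s.M j := by
      rw [sum_symmDiff]
      have := add_mem hFM hF₀
      have e : ∑ p ∈ F, u p + g + (∑ p ∈ F₀, u p + g) =
          ∑ p ∈ F, u p + ∑ p ∈ F₀, u p + (g + g) := by abel
      rwa [e, V_add_self, add_zero] at this
    have h2 : (symmDiff F F₀).card ≤ 2 * n := by
      have h3 : symmDiff F F₀ ⊆ F ∪ F₀ := by
        intro a ha
        rw [Finset.mem_symmDiff] at ha
        rcases ha with ⟨ha, _⟩ | ⟨ha, _⟩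
        · exact Finset.mem_union_left _ ha
        · exact Finset.mem_union_right _ ha
      have h4 := (Finset.card_le_card h3).trans (Finset.card_union_le F F₀)
      omega
    by_cases hp0 : p ∈ F₀
    · exact Or.inl (Finset.mem_union_left _ hp0)
    · rcases hP _ h2 h1 p (Finset.mem_symmDiff.2 (Or.inl ⟨hp, hp0⟩)) with h5 | h5
      · exact Or.inl (Finset.mem_union_right _ h5)
      · exact Or.inr h5
  · push Not at h0
    exact ⟨∅, fun F hF hFM => (h0 F hF hFM).elim⟩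

/-- the partial sums of the sequence of subgroups -/
noncomputable def W (Y : ℕ → Submodule K (ι →₀ K)) (n : ℕ) : Submodule K (ι →₀ K) := ⨆ k : Fin n, Y k

lemma W_succ (Y : ℕ → Submodule K (ι →₀ K)) (n : ℕ) : W Y (n + 1) = W Y n ⊔ Y n := by
  apply le_antisymm
  · refine iSup_le fun k => ?_
    rcases Nat.lt_succ_iff_lt_or_eq.1 k.2 with h | h
    · exact le_sup_of_le_left (le_iSup (fun k : Fin n => Y k) ⟨k, h⟩)
    · rw [h]; exact le_sup_right
  · refine sup_le (iSup_le fun k => ?_) ?_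
    · exact le_iSup (fun k : Fin (n + 1) => Y k) ⟨k, by omega⟩
    · exact le_iSup (fun k : Fin (n + 1) => Y k) ⟨n, by omega⟩

lemma W_mono (Y : ℕ → Submodule K (ι →₀ K)) : Monotone (W Y) :=
  monotone_nat_of_le_succ fun n => by rw [W_succ]; exact le_sup_left

lemma W_fg {Y : ℕ → Submodule K (ι →₀ K)} (h : ∀ k, (Y k).FG) (n : ℕ) : (W Y n).FG := by
  induction n with
  | zero =>
    have : W Y 0 = ⊥ := by simp [W]
    rw [this]; exact Submodule.fg_bot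
  | succ n ih => rw [W_succ]; exact ih.sup (h n)

lemma iSup_eq_W (Y : ℕ → Submodule K (ι →₀ K)) : ⨆ k, Y k = ⨆ n, W Y n := by
  apply le_antisymm
  · refine iSup_le fun k => ?_
    refine le_trans ?_ (le_iSup (W Y) (k + 1))
    rw [W_succ]; exact le_sup_right
  · exact iSup_le fun n => iSup_le fun k => le_iSup Y k

lemma mem_sup_W {Y : ℕ → Submodule K (ι →₀ K)} {N : Submodule K (ι →₀ K)} {x : ι →₀ K}
    (hx : x ∈ N ⊔ ⨆ k, Y k) : ∃ n, x ∈ N ⊔ W Y n := by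
  rw [iSup_eq_W, Submodule.mem_sup] at hx
  obtain ⟨y, hy, z, hz, rfl⟩ := hx
  rw [Submodule.mem_iSup_of_directed _ (W_mono Y).directed_le] at hz
  obtain ⟨n, hn⟩ := hz
  exact ⟨n, Submodule.mem_sup.2 ⟨y, hy, z, hn, rfl⟩⟩

lemma W_le_M (h : s.OK u) {Y : ℕ → Submodule K (ι →₀ K)} (hY : ∀ k, Y k ≤ s.M (k + 1)) (n : ℕ) :
    W Y n ≤ s.M n :=
  iSup_le fun k => (hY k).trans (h.mono (by omega))

/-- the condition on the blocks: no element of a block is a short sum modulo the earlier part -/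
def Indep (u : ℕ × ℕ → ι →₀ K) (s : Side ι) (Y : ℕ → Submodule K (ι →₀ K)) (Q : Set (ℕ × ℕ)) :
    Prop :=
  ∀ k, ∀ y ∈ Y k, y ≠ 0 → ∀ F : Finset (ℕ × ℕ), F.card ≤ k → (∀ p ∈ F, p ∉ Q) →
    ∑ p ∈ F, u p + y ∉ s.M k

lemma descend (h : s.OK u) {Y : ℕ → Submodule K (ι →₀ K)} (hY : ∀ k, Y k ≤ s.M (k + 1))
    {Q : Set (ℕ × ℕ)} (hU : Indep u s Y Q) {j c : ℕ} {F : Finset (ℕ × ℕ)} (hF : F.card ≤ c)
    (hQ : ∀ p ∈ F, p ∉ Q) (hx : ∑ p ∈ F, u p ∈ s.M j ⊔ ⨆ k, Y k) :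
    ∑ p ∈ F, u p ∈ s.M j ⊔ W Y (max c j) := by
  obtain ⟨n, hn⟩ := mem_sup_W hx
  have key : ∀ d, ∑ p ∈ F, u p ∈ s.M j ⊔ W Y (max c j + d) →
      ∑ p ∈ F, u p ∈ s.M j ⊔ W Y (max c j) := by
    intro d
    induction d with
    | zero => exact id
    | succ d ih =>
      intro hx
      apply ih
      rw [← add_assoc, W_succ, ← sup_assoc, Submodule.mem_sup] at hx
      obtain ⟨a, ha, y, hy, hay⟩ := hx
      by_cases hy0 : y = 0
      · rw [hy0, add_zero] at hay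
        rw [← hay]; exact ha
      · exfalso
        refine hU _ y hy hy0 F (hF.trans (by omega)) hQ ?_
        rw [← hay, add_assoc, V_add_self, add_zero]
        have h1 : s.M j ⊔ W Y (max c j + d) ≤ s.M (max c j + d) :=
          sup_le (h.mono (by omega)) (W_le_M h hY _)
        exact h1 ha
  refine key n ?_
  exact sup_le_sup_left (W_mono Y (by omega)) _ hn

/-- a character vanishing on the new frozen subgroups -/
lemma exists_row (h : s.OK u) {Y : ℕ → Submodule K (ι →₀ K)} (hfg : ∀ k, (Y k).FG)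
    (hY : ∀ k, Y k ≤ s.M (k + 1)) (hd : ∀ k, ∀ y ∈ Y k, y ∈ s.M k → y = 0) (j : ℕ)
    (y : ι →₀ K) (hy : y ∈ s.V) (hyn : y ∉ s.M j ⊔ ⨆ k, Y k) :
    ∃ r : ι → K, s.InR (lc r) ∧ (∀ m ∈ s.M j ⊔ ⨆ k, Y k, lc r m = 0) ∧ lc r y ≠ 0 := by
  obtain ⟨l₀, hl₀⟩ := h.cov y hy
  set l := max l₀ j with hl
  have hyl : y ∈ s.M l := h.mono (le_max_left _ _) hl₀
  have hcl := IsCl.sup_fg (h.closed j) (W_fg hfg l) ((W_le_M h hY l).trans (h.Mle l))
  have hle : s.M j ⊔ W Y l ≤ s.M j ⊔ ⨆ k, Y k := by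
    refine sup_le_sup_left ?_ _
    rw [iSup_eq_W]
    exact le_iSup (W Y) l
  obtain ⟨η, hη, h1, h2⟩ := hcl y hy fun hc => hyn (hle hc)
  obtain ⟨r, hr, hr1, hr2⟩ := glue h Y hfg hY hd (fun _ => 0) l η hη
  refine ⟨r, hr, ?_, ?_⟩
  · have h3 : s.M j ⊔ ⨆ k, Y k ≤ LinearMap.ker (lc r) := by
      refine sup_le (fun m hm => ?_) (iSup_le fun k m hm => ?_)
      · rw [LinearMap.mem_ker, hr1 m (h.mono (le_max_right _ _) hm)]
        exact h1 m (Submodule.mem_sup_left hm)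
      · rw [LinearMap.mem_ker]
        rcases le_or_gt l k with hk | hk
        · rw [hr2 k hk m hm]; rfl
        · rw [hr1 m (h.mono (by omega) (hY k hm))]
          refine h1 m (Submodule.mem_sup_right ?_)
          exact le_iSup (fun k : Fin l => Y k) ⟨k, hk⟩ hm
    intro m hm
    exact h3 hm
  · rw [hr1 y hyl]; exact h2

theorem freeze [Uncountable ι] (h : s.OK u) (Y : ℕ → Submodule K (ι →₀ K))
    (hfg : ∀ k, (Y k).FG) (hY : ∀ k, Y k ≤ s.M (k + 1)) (Q : Set (ℕ × ℕ))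
    (hQ : ∀ p ∈ Q, u p ∈ ⨆ k, Y k) (hU : Indep u s Y Q) :
    ∃ t : Side ι, Ext s t ∧ t.OK u ∧ (∀ j, t.M j = s.M j ⊔ ⨆ k, Y k) ∧
      (∀ l ∈ t.X, ∃ l' ∈ s.X, ∀ m ∈ t.M 0, t.b l m = s.b l' m) ∧
      (∀ j p, u p ∈ t.M j → p ∈ Q ∨ u p ∈ s.M (max 1 j)) := by
  classical
  have hd : ∀ k, ∀ y ∈ Y k, y ∈ s.M k → y = 0 := by
    intro k y hy hyM
    by_contra hy0
    exact hU k y hy hy0 ∅ (by simp) (by simp) (by simpa using hyM)
  have hrow : ∀ q : ℕ × s.V, ∃ r : ι → K, s.InR (lc r) ∧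
      (∀ m ∈ s.M q.1 ⊔ ⨆ k, Y k, lc r m = 0) ∧
      ((q.2 : ι →₀ K) ∉ s.M q.1 ⊔ ⨆ k, Y k → lc r q.2 ≠ 0) := by
    rintro ⟨j, y, hy⟩
    by_cases hyn : y ∈ s.M j ⊔ ⨆ k, Y k
    · refine ⟨0, fun j => ⟨0, Submodule.zero_mem _, ?_⟩, ?_, fun h => (h hyn).elim⟩
      · simp [lc]
      · simp [lc]
    · obtain ⟨r, h1, h2, h3⟩ := exists_row h hfg hY hd j y hy hyn
      exact ⟨r, h1, h2, fun _ => h3⟩
  choose ρ hρ1 hρ2 hρ3 using hrow
  have := countable_V h.Dc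
  obtain ⟨g, hg⟩ := exists_surjective_nat (ℕ × s.V)
  obtain ⟨lam, hinj, hlam⟩ := exists_fresh h.Lc
  set s' := addChars s lam (fun n => ρ (g n)) with hs'
  have hs'ok : s'.OK u := addChars_ok h
  have hb : ∀ q : ℕ × s.V, ∃ l ∈ s'.X, s'.b l = lc (ρ q) := by
    intro q
    obtain ⟨n, rfl⟩ := hg q
    exact ⟨Finsupp.single (lam n) 1, addChars_mem_new n,
      addChars_b_new (r := fun n => ρ (g n)) hinj hlam n⟩
  set t : Side ι := { s' with M := fun j => s.M j ⊔ ⨆ k, Y k } with ht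
  have htV : t.V = s.V := rfl
  have htX : t.X = s'.X := rfl
  have htb : t.b = s'.b := rfl
  have hWV : ⨆ k, Y k ≤ s.V := iSup_le fun k => (hY k).trans (h.Mle _)
  have hloop : ∀ j p, u p ∈ t.M j → p ∈ Q ∨ u p ∈ s.M (max 1 j) := by
    intro j p hp
    by_cases hpQ : p ∈ Q
    · exact Or.inl hpQ
    right
    have h1 : ∑ q ∈ {p}, u q ∈ s.M j ⊔ ⨆ k, Y k := by simpa using hp
    have h2 := descend h hY hU (c := 1) (F := {p}) (by simp)
      (by simpa using hpQ) h1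
    rw [Finset.sum_singleton] at h2
    exact sup_le (h.mono (le_max_right _ _)) (W_le_M h hY _) h2
  refine ⟨t, ⟨subset_rfl, Set.subset_union_left, fun l hl a _ => ?_, fun j => ⟨j, le_sup_left⟩,
    fun l hl j => ?_⟩, ⟨h.Dc, hs'ok.Lc, fun j => sup_le (h.Mle j) hWV, fun i j hij =>
      sup_le_sup_right (h.mono hij) _, fun v hv => ?_, hs'ok.sep, fun j y hy hyj => ?_, h.base,
      fun j n => ?_⟩, fun j => rfl, fun l hl => ?_, hloop⟩
  · exact congrFun (addChars_old (lam := lam) (r := fun n => ρ (g n)) hl) a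
  · exact addChars_R hinj hlam (s.M j) (fun n => hρ1 (g n) j) l hl
  · obtain ⟨j, hj⟩ := h.cov v hv
    exact ⟨j, Submodule.mem_sup_left hj⟩
  · obtain ⟨l, hl, hlb⟩ := hb (j, ⟨y, hy⟩)
    refine ⟨l, hl, fun m hm => ?_, ?_⟩
    · rw [htb, hlb]
      exact hρ2 (j, ⟨y, hy⟩) m hm
    · rw [htb, hlb]
      exact hρ3 (j, ⟨y, hy⟩) hyj
  · -- few short relations
    have hfin : Finite (W Y (max n j)) := by
      have : Module.Finite K (W Y (max n j)) := Module.Finite.iff_fg.2 (W_fg hfg _)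
      exact Module.finite_of_finite K
    choose P hP using LI_coset h j n
    have := Fintype.ofFinite (W Y (max n j))
    refine ⟨Finset.univ.biUnion fun g : W Y (max n j) => P g, fun F hF hFM p hp => ?_⟩
    by_cases hpQ : p ∈ Q
    · exact Or.inr (Submodule.mem_sup_right (hQ p hpQ))
    have hsplit := Finset.sum_filter_add_sum_filter_not F (fun q => q ∈ Q) u
    have h1 : ∑ q ∈ F with q ∉ Q, u q ∈ s.M j ⊔ ⨆ k, Y k := by
      have h2 : ∑ q ∈ F with q ∈ Q, u q ∈ s.M j ⊔ ⨆ k, Y k :=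
        Submodule.sum_mem _ fun q hq => Submodule.mem_sup_right (hQ q (Finset.mem_filter.1 hq).2)
      have h3 : ∑ q ∈ F with q ∉ Q, u q = ∑ p ∈ F, u p + ∑ q ∈ F with q ∈ Q, u q := by
        rw [← hsplit, add_right_comm, V_add_self, zero_add]
      rw [h3]
      exact add_mem hFM h2
    have h4 := descend h hY hU (c := n) ((Finset.card_filter_le _ _).trans hF)
      (fun q hq => (Finset.mem_filter.1 hq).2) h1
    obtain ⟨m, hm, g, hg', hmg⟩ := Submodule.mem_sup.1 h4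
    have h5 : ∑ q ∈ F with q ∉ Q, u q + g ∈ s.M j := by
      rw [← hmg, add_assoc, V_add_self, add_zero]; exact hm
    rcases hP g _ ((Finset.card_filter_le _ _).trans hF) h5 p
      (Finset.mem_filter.2 ⟨hp, hpQ⟩) with h6 | h6
    · exact Or.inl (Finset.mem_biUnion.2 ⟨⟨g, hg'⟩, Finset.mem_univ _, h6⟩)
    · exact Or.inr (Submodule.mem_sup_left h6)
  · have h7 : ∀ n, ∃ l ∈ s.X, ∀ m ∈ s.M 0 ⊔ ⨆ k, Y k, lc (ρ (g n)) m = s.b l m := by
      intro n
      refine ⟨0, Submodule.zero_mem _, fun m hm => ?_⟩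
      rw [map_zero, LinearMap.zero_apply]
      exact hρ2 (g n) m (sup_le_sup_right (h.mono (Nat.zero_le _)) _ hm)
    exact addChars_R hinj hlam (s.M 0 ⊔ ⨆ k, Y k) h7 l hl

end Pool.Agent.W654.SG
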