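import Pool.Agent.W654.SG.Basic

/-!
# Gluing characters and adding characters
-/

set_option autoImplicit false

namespace Pool.Agent.W654.SG

variable {ι : Type} {u : ℕ × ℕ → ι →₀ K} {s t : Side ι}

/-- the functional with the values `r` on the basis -/
noncomputable abbrev lc (r : ι → K) : (ι →₀ K) →ₗ[K] K := Finsupp.linearCombination K r

lemma eq_lc (f : (ι →₀ K) →ₗ[K] K) : f = lc fun a => f (Finsupp.single a 1) := by
  ext a
  simp [lc]

lemma limitFunctional (h : s.OK u) (l : ℕ) (η : ℕ → ι →₀ K)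
    (hc : ∀ k, ∀ m ∈ s.M (l + k), s.b (η (k + 1)) m = s.b (η k) m) :
    ∃ r : ι → K, ∀ k, ∀ v ∈ s.M (l + k), lc r v = s.b (η k) v := by
  classical
  have coh : ∀ d k, ∀ m ∈ s.M (l + k), s.b (η (k + d)) m = s.b (η k) m := by
    intro d
    induction d with
    | zero => intro k m _; rfl
    | succ d ih =>
      intro k m hm
      have h1 : s.b (η (k + d + 1)) m = s.b (η (k + d)) m :=
        hc (k + d) m (h.mono (by omega) hm)
      rw [← add_assoc, h1, ih k m hm]
  have ex : ∀ a : ι, ∃ k, a ∈ s.D → Finsupp.single a (1 : K) ∈ s.M (l + k) := by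
    intro a
    by_cases ha : a ∈ s.D
    · obtain ⟨j, hj⟩ := h.cov (Finsupp.single a 1) (Finsupp.single_mem_supported K _ ha)
      exact ⟨j, fun _ => h.mono (by omega) hj⟩
    · exact ⟨0, fun h => (ha h).elim⟩
  choose κ hκ using ex
  refine ⟨fun a => s.b (η (κ a)) (Finsupp.single a 1), fun k v hv => ?_⟩
  have hvD : ↑v.support ⊆ s.D := h.Mle _ hv
  set N := k + ∑ a ∈ v.support, κ a with hN
  have h1 : s.b (η N) v = s.b (η k) v := coh _ k v hv
  rw [← h1, eq_lc (s.b (η N))]
  simp only [lc, Finsupp.linearCombination_apply, Finsupp.sum]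
  refine Finset.sum_congr rfl fun a ha => ?_
  have h2 : κ a ≤ N := by
    have := Finset.single_le_sum (f := κ) (fun i _ => Nat.zero_le _) ha
    omega
  obtain ⟨d, hd⟩ := Nat.exists_eq_add_of_le h2
  rw [hd, coh d (κ a) _ (hκ a (hvD ha))]

/-- gluing: a character can be prescribed on a sequence of finite subgroups which are
independent of the frozen subgroups -/
lemma glue (h : s.OK u) (Y : ℕ → Submodule K (ι →₀ K)) (hfg : ∀ k, (Y k).FG)
    (hY : ∀ k, Y k ≤ s.M (k + 1)) (hd : ∀ k, ∀ y ∈ Y k, y ∈ s.M k → y = 0)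
    (f : ℕ → (ι →₀ K) →ₗ[K] K) (l : ℕ) (η : ι →₀ K) (hη : η ∈ s.X) :
    ∃ r : ι → K, s.InR (lc r) ∧ (∀ m ∈ s.M l, lc r m = s.b η m) ∧
      ∀ k, l ≤ k → ∀ y ∈ Y k, lc r y = f k y := by
  have step : ∀ (k : ℕ) (θ : {θ // θ ∈ s.X}), ∃ θ' : {θ // θ ∈ s.X},
      (∀ m ∈ s.M (l + k), s.b θ' m = s.b θ m) ∧ ∀ y ∈ Y (l + k), s.b θ' y = f (l + k) y := by
    intro k θ
    obtain ⟨l', hl', h1, h2⟩ := interp (h.closed (l + k)) (hfg (l + k))
      ((hY _).trans (h.Mle _)) (hd (l + k)) (f (l + k) - s.b θ)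
    refine ⟨⟨θ + l', add_mem θ.2 hl'⟩, fun m hm => ?_, fun y hy => ?_⟩
    · rw [map_add, LinearMap.add_apply, h1 m hm, add_zero]
    · rw [map_add, LinearMap.add_apply, h2 y hy, LinearMap.sub_apply, add_sub_cancel]
  choose g hg1 hg2 using step
  obtain ⟨θ, hθ0, hθ⟩ : ∃ θ : ℕ → {θ // θ ∈ s.X}, θ 0 = ⟨η, hη⟩ ∧ ∀ k, θ (k + 1) = g k (θ k) :=
    ⟨fun k => Nat.rec ⟨η, hη⟩ (fun k θ => g k θ) k, rfl, fun k => rfl⟩
  obtain ⟨r, hr⟩ := limitFunctional h l (fun k => (θ k).1) (fun k m hm => by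
    have := hg1 k (θ k) m hm
    rw [← hθ] at this
    exact this)
  refine ⟨r, fun j => ⟨θ j, (θ j).2, fun m hm => hr j m (h.mono (by omega) hm)⟩,
    fun m hm => by
      have := hr 0 m hm
      rw [hθ0] at this
      exact this, fun k hk y hy => ?_⟩
  obtain ⟨d, rfl⟩ := Nat.exists_eq_add_of_le hk
  have h1 : y ∈ s.M (l + (d + 1)) := hY _ hy
  rw [hr (d + 1) y h1]
  have := hg2 d (θ d) y hy
  rw [← hθ] at this
  exact this

/-- adding countably many characters -/
noncomputable def addChars (s : Side ι) (lam : ℕ → ι) (r : ℕ → ι → K) : Side ι where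
  D := s.D
  L := s.L ∪ Set.range lam
  c := fun l a => open Classical in if l ∈ s.L then s.c l a else
    if h : ∃ n, l = lam n then r h.choose a else s.c l a
  M := s.M

section addChars

variable {lam : ℕ → ι} {r : ℕ → ι → K}

lemma addChars_old {l : ι} (hl : l ∈ s.L) : (addChars s lam r).c l = s.c l := by
  funext a
  simp [addChars, hl]

lemma addChars_new (hinj : Function.Injective lam) (hlam : ∀ n, lam n ∉ s.L) (n : ℕ) :
    (addChars s lam r).c (lam n) = r n := by
  funext a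
  have h : ∃ k, lam n = lam k := ⟨n, rfl⟩
  have h2 : h.choose = n := (hinj h.choose_spec).symm
  simp only [addChars, hlam n, if_false, dif_pos h, h2]

lemma addChars_b_new (hinj : Function.Injective lam) (hlam : ∀ n, lam n ∉ s.L) (n : ℕ) :
    (addChars s lam r).b (Finsupp.single (lam n) 1) = lc (r n) := by
  rw [Side.b, B_single, addChars_new hinj hlam]

lemma addChars_mem_new (n : ℕ) : Finsupp.single (lam n) (1 : K) ∈ (addChars s lam r).X :=
  Finsupp.single_mem_supported K _ (Or.inr ⟨n, rfl⟩)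

lemma addChars_X : s.X ≤ (addChars s lam r).X := Finsupp.supported_mono Set.subset_union_left

lemma addChars_b {l : ι →₀ K} (hl : l ∈ s.X) : (addChars s lam r).b l = s.b l := by
  have hl' : ↑l.support ⊆ s.L := hl
  rw [Side.b, Side.b, B, B, Finsupp.linearCombination_apply, Finsupp.linearCombination_apply]
  simp only [Finsupp.sum]
  exact Finset.sum_congr rfl fun a ha => by rw [addChars_old (hl' ha)]

/-- a property of all the new characters on a subgroup -/
lemma addChars_R (hinj : Function.Injective lam) (hlam : ∀ n, lam n ∉ s.L)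
    (N : Submodule K (ι →₀ K))
    (hN : ∀ n, ∃ l ∈ s.X, ∀ m ∈ N, lc (r n) m = s.b l m) :
    ∀ l ∈ (addChars s lam r).X, ∃ l' ∈ s.X, ∀ m ∈ N, (addChars s lam r).b l m = s.b l' m := by
  intro l hl
  rw [Side.X, Finsupp.supported_eq_span_single] at hl
  refine Submodule.span_induction ?_ ?_ ?_ ?_ hl
  · rintro _ ⟨i, hi, rfl⟩
    rcases hi with hi | ⟨n, rfl⟩
    · refine ⟨Finsupp.single i 1, Finsupp.single_mem_supported K _ hi, fun m _ => ?_⟩
      rw [addChars_b (Finsupp.single_mem_supported K _ hi)]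
    · obtain ⟨l', hl', h⟩ := hN n
      exact ⟨l', hl', fun m hm => by rw [addChars_b_new hinj hlam, h m hm]⟩
  · exact ⟨0, Submodule.zero_mem _, by simp⟩
  · rintro x y _ _ ⟨l₁, h1, h1'⟩ ⟨l₂, h2, h2'⟩
    exact ⟨l₁ + l₂, add_mem h1 h2, fun m hm => by
      rw [map_add, map_add, LinearMap.add_apply, LinearMap.add_apply, h1' m hm, h2' m hm]⟩
  · rintro a x _ ⟨l₁, h1, h1'⟩
    exact ⟨a • l₁, Submodule.smul_mem _ _ h1, fun m hm => by
      rw [map_smul, map_smul, LinearMap.smul_apply, LinearMap.smul_apply, h1' m hm]⟩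

lemma addChars_ext (hinj : Function.Injective lam) (hlam : ∀ n, lam n ∉ s.L)
    (hr : ∀ n, s.InR (lc (r n))) : Ext s (addChars s lam r) where
  D := subset_rfl
  L := Set.subset_union_left
  c := fun l hl a _ => by rw [addChars_old hl]
  M := fun j => ⟨j, le_rfl⟩
  R := fun l hl j => addChars_R hinj hlam (s.M j) (fun n => hr n j) l hl

lemma addChars_ok (h : s.OK u) : (addChars s lam r).OK u where
  Dc := h.Dc
  Lc := h.Lc.union (Set.countable_range lam)
  Mle := h.Mle
  mono := h.mono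
  cov := h.cov
  sep := fun v hv h0 => by
    obtain ⟨l, hl, h1⟩ := h.sep v hv h0
    exact ⟨l, addChars_X hl, by rwa [addChars_b hl]⟩
  closed := fun j y hy hyj => by
    obtain ⟨l, hl, h1, h2⟩ := h.closed j y hy hyj
    exact ⟨l, addChars_X hl, by rw [addChars_b hl]; exact h1, by rwa [addChars_b hl]⟩
  base := h.base
  LI := h.LI

end addChars

/-- fresh names -/
lemma exists_fresh [Uncountable ι] {L : Set ι} (hL : L.Countable) :
    ∃ lam : ℕ → ι, Function.Injective lam ∧ ∀ n, lam n ∉ L := by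
  have h1 : Lᶜ.Infinite := by
    intro hfin
    have h2 : (Set.univ : Set ι).Countable := by
      rw [← Set.union_compl_self L]
      exact hL.union hfin.countable
    exact not_countable (Set.countable_univ_iff.1 h2)
  have := h1.to_subtype
  exact ⟨fun n => (Infinite.natEmbedding (Lᶜ : Set ι) n : ι),
    Subtype.val_injective.comp (Infinite.natEmbedding _).injective,
    fun n => (Infinite.natEmbedding (Lᶜ : Set ι) n).2⟩

end Pool.Agent.W654.SG
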