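import Pool.Agent.W654.SG.Union

/-!
# The successor step
-/

set_option autoImplicit false

namespace Pool.Agent.W654.SG

open Filter

variable {ι : Type} {u : ℕ × ℕ → ι →₀ K} {s t : Side ι}

/-- the origin is in the closure of the part of `A` in `s` -/
def Acc (s : Side ι) (A : Set (ι →₀ K)) : Prop :=
  ∀ E : Finset (ι →₀ K), (∀ l ∈ E, l ∈ s.X) → ∃ a ∈ A, a ∈ s.V ∧ ∀ l ∈ E, s.b l a = 0

/-- what is done for the set `A` on one side: a null sequence -/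
def HNull (s s' : Side ι) (A : Set (ι →₀ K)) : Prop :=
  Acc s A → ∃ a : ℕ → ι →₀ K, (∀ i, a i ∈ A) ∧ (∀ i, a i ∈ s.V) ∧ Conv s' a 0

/-- what is done for the set `A` on one side: a convergent sequence -/
def HConv (s s' : Side ι) (A : Set (ι →₀ K)) : Prop :=
  {a | a ∈ A ∧ a ∈ s.V}.Infinite → ∃ (a : ℕ → ι →₀ K) (x : ι →₀ K), Function.Injective a ∧
    (∀ i, a i ∈ A) ∧ (∀ i, a i ∈ s.V) ∧ Conv s' a x

/-- what is done for the set `A` of points of the grid -/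
def HGood (u : ℕ × ℕ → ι →₀ K) (s' t' : Side ι) (A : Set (ι →₀ K)) : Prop :=
  {p | u p ∈ A}.Infinite → ∃ f : Set (ℕ × ℕ), f.Infinite ∧ f ⊆ {p | u p ∈ A} ∧ Good u s' t' f

lemma HNull.ext {s' s'' : Side ι} {A : Set (ι →₀ K)} (h : HNull s s' A) (e : Ext s' s'') :
    HNull s s'' A := by
  intro hA
  obtain ⟨a, h1, h2, h3⟩ := h hA
  exact ⟨a, h1, h2, h3.ext e⟩

lemma HConv.ext {s' s'' : Side ι} {A : Set (ι →₀ K)} (h : HConv s s' A) (e : Ext s' s'') :
    HConv s s'' A := by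
  intro hA
  obtain ⟨a, x, h0, h1, h2, h3⟩ := h hA
  exact ⟨a, x, h0, h1, h2, h3.ext e⟩

lemma HConv.of_le {s₀ s' : Side ι} {A : Set (ι →₀ K)} (h : HConv s s' A) (e : Ext s₀ s) :
    {a | a ∈ A ∧ a ∈ s₀.V}.Infinite → ∃ (a : ℕ → ι →₀ K) (x : ι →₀ K), Function.Injective a ∧
    (∀ i, a i ∈ A) ∧ Conv s' a x := by
  intro hA
  obtain ⟨a, x, h0, h1, h2, h3⟩ := h (hA.mono fun a ha => ⟨ha.1, e.V ha.2⟩)
  exact ⟨a, x, h0, h1, h3⟩

lemma null_step [Uncountable ι] (h : PairOK u s t) (A : Set (ι →₀ K)) :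
    ∃ s' t', Ext s s' ∧ Ext t t' ∧ PairOK u s' t' ∧ HNull s s' A := by
  classical
  by_cases hA : Acc s A
  · have := countable_X h.ok₁.Lc
    obtain ⟨g, hg⟩ := exists_surjective_nat s.X
    have h1 : ∀ i, ∃ a ∈ A, a ∈ s.V ∧ ∀ k < i, s.b (g k) a = 0 := by
      intro i
      obtain ⟨a, h1, h2, h3⟩ := hA ((Finset.range i).image fun k => (g k : ι →₀ K)) (by
        intro l hl
        obtain ⟨k, _, rfl⟩ := Finset.mem_image.1 hl
        exact (g k).2)
      exact ⟨a, h1, h2, fun k hk => h3 _ (Finset.mem_image_of_mem _ (Finset.mem_range.2 hk))⟩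
    choose a ha1 ha2 ha3 using h1
    obtain ⟨s', t', φ, x, e, e', ok, hφ, hx, h0⟩ := step_conv h a ha2
    have hx0 : x = 0 := by
      apply h0
      intro l hl
      obtain ⟨k, hk⟩ := hg ⟨l, hl⟩
      filter_upwards [eventually_gt_atTop k] with i hi
      have := ha3 i k hi
      rwa [hk] at this
    rw [hx0] at hx
    exact ⟨s', t', e, e', ok, fun _ => ⟨a ∘ φ, fun i => ha1 _, fun i => ha2 _, hx⟩⟩
  · exact ⟨s, t, Ext.refl s, Ext.refl t, h, fun hc => (hA hc).elim⟩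

lemma conv_step [Uncountable ι] (h : PairOK u s t) (s₀ : Side ι) (e₀ : Ext s₀ s)
    (A : Set (ι →₀ K)) :
    ∃ s' t', Ext s s' ∧ Ext t t' ∧ PairOK u s' t' ∧ HConv s₀ s' A := by
  classical
  by_cases hA : {a | a ∈ A ∧ a ∈ s₀.V}.Infinite
  · have := hA.to_subtype
    set g := Infinite.natEmbedding {a | a ∈ A ∧ a ∈ s₀.V} with hg
    obtain ⟨s', t', φ, x, e, e', ok, hφ, hx, h0⟩ := step_conv h (fun i => (g i : ι →₀ K))
      fun i => e₀.V (g i).2.2
    exact ⟨s', t', e, e', ok, fun _ => ⟨_, x, (Subtype.val_injective.comp g.injective).comp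
      hφ.injective, fun i => (g (φ i)).2.1, fun i => (g (φ i)).2.2, hx⟩⟩
  · exact ⟨s, t, Ext.refl s, Ext.refl t, h, fun hc => (hA hc).elim⟩

lemma good_step [Uncountable ι] (h : PairOK u s t) (A : Set (ι →₀ K)) :
    ∃ t', Ext t t' ∧ PairOK u s t' ∧ HGood u s t' A := by
  classical
  by_cases hA : {p | u p ∈ A}.Infinite
  · have := hA.to_subtype
    set g := Infinite.natEmbedding {p | u p ∈ A} with hg
    obtain ⟨t', φ, e, ok, hφ, hG⟩ := good_seq h fun i => (g i : ℕ × ℕ)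
    refine ⟨t', e, ok, fun _ => ⟨_, ?_, ?_, hG⟩⟩
    · exact Set.infinite_range_of_injective
        ((Subtype.val_injective.comp g.injective).comp hφ.injective)
    · rintro _ ⟨i, rfl⟩
      exact (g (φ i)).2
  · exact ⟨t, Ext.refl t, h, fun hc => (hA hc).elim⟩

/-- everything which is done for `A` in a step -/
structure Handled (u : ℕ × ℕ → ι →₀ K) (s t s' t' : Side ι) (A : Set (ι →₀ K)) (b : Bool) :
    Prop where
  es : Ext s s'
  et : Ext t t'
  null₁ : b = false → HNull s s' A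
  null₂ : b = true → HNull t t' A
  conv₁ : HConv s s' A
  conv₂ : HConv t t' A
  good : HGood u s' t' A

theorem handle [Uncountable ι] (h : PairOK u s t) (A : Set (ι →₀ K)) (b : Bool) :
    ∃ s' t', PairOK u s' t' ∧ Handled u s t s' t' A b := by
  have h1 : ∃ s₁ t₁, Ext s s₁ ∧ Ext t t₁ ∧ PairOK u s₁ t₁ ∧ (b = false → HNull s s₁ A) ∧
      (b = true → HNull t t₁ A) := by
    cases b with
    | false =>
      obtain ⟨s₁, t₁, e, e', ok, hn⟩ := null_step h A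
      exact ⟨s₁, t₁, e, e', ok, fun _ => hn, by simp⟩
    | true =>
      obtain ⟨t₁, s₁, e, e', ok, hn⟩ := null_step h.swap A
      exact ⟨s₁, t₁, e', e, ok.swap, by simp, fun _ => hn⟩
  obtain ⟨s₁, t₁, e₁, f₁, ok₁, hn, hn'⟩ := h1
  obtain ⟨s₂, t₂, e₂, f₂, ok₂, hc⟩ := conv_step ok₁ s e₁ A
  obtain ⟨t₃, s₃, f₃, e₃, ok₃, hc'⟩ := conv_step ok₂.swap t (f₁.trans f₂) A
  obtain ⟨t₄, f₄, ok₄, hg⟩ := good_step ok₃.swap A
  exact ⟨s₃, t₄, ok₄, e₁.trans (e₂.trans e₃), (f₁.trans f₂).trans (f₃.trans f₄),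
    fun hb => (hn hb).ext (e₂.trans e₃), fun hb => (hn' hb).ext (f₂.trans (f₃.trans f₄)),
    hc.ext e₃, hc'.ext f₄, hg⟩

end Pool.Agent.W654.SG
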