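import Pool.Agent.W654.SG.Handle

/-!
# The initial side
-/

set_option autoImplicit false

namespace Pool.Agent.W654.SG

open Filter

variable {ι : Type}

/-- the points of the grid -/
noncomputable def uu (g : ℕ × ℕ → ι) (p : ℕ × ℕ) : ι →₀ K := Finsupp.single (g (p.1, p.2 + 1)) 1

/-- the limits of the columns -/
noncomputable def cc (g : ℕ × ℕ → ι) (k : ℕ) : ι →₀ K := Finsupp.single (g (k, 0)) 1

/-- the initial side -/
noncomputable def init (g : ℕ × ℕ → ι) : Side ι where
  D := Set.range g
  L := Set.range g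
  c := fun l a => open Classical in if a = l then 1 else 0
  M := fun j => Finsupp.supported K K {a | ∃ p : ℕ × ℕ, a = g p ∧ (p.2 = 0 ∨ p.1 < j)}

variable {g : ℕ × ℕ → ι}

lemma init_b_left (a : ι) (v : ι →₀ K) : (init g).b (Finsupp.single a 1) v = v a := by
  classical
  rw [Side.b, B_single, Finsupp.linearCombination_apply]
  simp only [init, Finsupp.sum, smul_eq_mul, mul_ite, mul_one, mul_zero,
    Finset.sum_ite_eq', Finsupp.mem_support_iff, ne_eq, ite_not]
  split_ifs with h
  · exact h.symm
  · rfl

lemma init_b_right (a : ι) (l : ι →₀ K) : (init g).b l (Finsupp.single a 1) = l a := by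
  classical
  rw [Side.b, B_apply]
  have h1 : ∀ i, (Finsupp.single a (1 : K)).sum (fun a' t => t * (init g).c i a') =
      if a = i then 1 else 0 := by
    intro i
    rw [Finsupp.sum_single_index (by simp)]
    simp [init]
  simp only [h1]
  simp only [Finsupp.sum, mul_ite, mul_one, mul_zero,
    Finset.sum_ite_eq, Finsupp.mem_support_iff, ne_eq, ite_not]
  split_ifs with h
  · exact h.symm
  · rfl

lemma mem_sup_iff {S : Set ι} {v : ι →₀ K} : v ∈ Finsupp.supported K K S ↔ ∀ a, v a ≠ 0 → a ∈ S := by
  constructor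
  · intro h a ha
    have h' : (v.support : Set ι) ⊆ S := h
    exact h' (by simpa using ha)
  · intro h
    change (v.support : Set ι) ⊆ S
    intro a ha
    exact h a (by simpa using ha)

lemma single_mem_sup_iff {S : Set ι} {a : ι} :
    Finsupp.single a (1 : K) ∈ Finsupp.supported K K S ↔ a ∈ S := by
  constructor
  · intro h
    by_contra hc
    exact single_notMem hc h
  · exact fun h => Finsupp.single_mem_supported K _ h

lemma uu_mem (hg : Function.Injective g) (p : ℕ × ℕ) (j : ℕ) :
    uu g p ∈ (init g).M j ↔ p.1 < j := by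
  change Finsupp.single _ _ ∈ Finsupp.supported K K _ ↔ _
  rw [single_mem_sup_iff]
  constructor
  · rintro ⟨q, hq, h⟩
    have := hg hq
    rcases h with h | h
    · rw [← this] at h; simp at h
    · rw [← this] at h; exact h
  · intro h
    exact ⟨(p.1, p.2 + 1), rfl, Or.inr h⟩

lemma cc_mem (k j : ℕ) : cc g k ∈ (init g).M j := by
  change Finsupp.single _ _ ∈ Finsupp.supported K K _
  rw [single_mem_sup_iff]
  exact ⟨(k, 0), rfl, Or.inl rfl⟩

lemma init_ok (hg : Function.Injective g) : (init g).OK (uu g) where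
  Dc := Set.countable_range g
  Lc := Set.countable_range g
  Mle := fun j => Finsupp.supported_mono fun a ha => by
    obtain ⟨p, rfl, _⟩ := ha
    exact ⟨p, rfl⟩
  mono := fun i j hij => Finsupp.supported_mono fun a ha => by
    obtain ⟨p, hp, h⟩ := ha
    exact ⟨p, hp, h.imp id fun h => by omega⟩
  cov := fun v hv => by
    have hv' := mem_sup_iff.1 hv
    have : ∀ a, ∃ n, v a ≠ 0 → ∃ p : ℕ × ℕ, a = g p ∧ (p.2 = 0 ∨ p.1 < n) := by
      intro a
      by_cases ha : v a = 0
      · exact ⟨0, fun h => (h ha).elim⟩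
      · obtain ⟨p, rfl⟩ := hv' a ha
        exact ⟨p.1 + 1, fun _ => ⟨p, rfl, Or.inr (Nat.lt_succ_self _)⟩⟩
    choose κ hκ using this
    refine ⟨∑ a ∈ v.support, κ a, mem_sup_iff.2 fun a ha => ?_⟩
    obtain ⟨p, h1, h2⟩ := hκ a ha
    have := Finset.single_le_sum (f := κ) (fun _ _ => Nat.zero_le _)
      (Finsupp.mem_support_iff.2 ha)
    exact ⟨p, h1, h2.imp id fun h => by omega⟩
  sep := fun v hv hv0 => by
    obtain ⟨a, ha⟩ := Finsupp.ne_iff.1 hv0
    refine ⟨Finsupp.single a 1, Finsupp.single_mem_supported K _ (mem_sup_iff.1 hv a ha), ?_⟩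
    rw [init_b_left]; exact ha
  closed := fun j y hy hyj => by
    have : ∃ a, y a ≠ 0 ∧ a ∉ {a | ∃ p : ℕ × ℕ, a = g p ∧ (p.2 = 0 ∨ p.1 < j)} := by
      by_contra hc
      push Not at hc
      exact hyj (mem_sup_iff.2 hc)
    obtain ⟨a, ha, haj⟩ := this
    refine ⟨Finsupp.single a 1, Finsupp.single_mem_supported K _ (mem_sup_iff.1 hy a ha),
      fun m hm => ?_, ?_⟩
    · rw [init_b_left]
      by_contra hc
      exact haj (mem_sup_iff.1 hm a hc)
    · rw [init_b_left]; exact ha
  base := fun p => Finsupp.single_mem_supported K _ ⟨_, rfl⟩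
  LI := fun j n => ⟨∅, fun F hF hFM p hp => by
    right
    rw [uu_mem hg]
    have h1 : (∑ q ∈ F, uu g q) (g (p.1, p.2 + 1)) = 1 := by
      classical
      rw [Finsupp.finsetSum_apply]
      rw [Finset.sum_eq_single p]
      · simp [uu]
      · intro q _ hqp
        simp only [uu]
        rw [Finsupp.single_apply, if_neg]
        intro h
        apply hqp
        have := hg h
        rw [Prod.mk.injEq] at this
        exact Prod.ext this.1 (by omega)
      · exact fun h => (h hp).elim
    obtain ⟨q, hq, h⟩ := mem_sup_iff.1 hFM (g (p.1, p.2 + 1)) (by rw [h1]; exact one_ne_zero)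
    have := hg hq
    rcases h with h | h
    · rw [← this] at h; simp at h
    · rw [← this] at h; exact h⟩

lemma init_pair (hg : Function.Injective g) : PairOK (uu g) (init g) (init g) := by
  have hJ : ∀ j, Good (uu g) (init g) (init g) {p | uu g p ∈ (init g).M j} := fun j =>
    ⟨∅, ∅, j, by simp, by simp, fun p hp hk => by
      rw [Set.mem_ofPred_eq, uu_mem hg] at hp
      omega⟩
  exact ⟨init_ok hg, init_ok hg, hJ, hJ⟩

lemma conv_cc (hg : Function.Injective g) : Conv (init g) (cc g) 0 := by
  refine ⟨0, Submodule.zero_mem _, fun k => cc_mem k 0, fun l hl => ?_⟩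
  have h1 : Function.Injective fun k => g (k, 0) := fun a b h => by
    have := hg h
    simpa using this
  have h2 : {k : ℕ | l (g (k, 0)) ≠ 0}.Finite := by
    refine Set.Finite.preimage (f := fun k => g (k, 0)) h1.injOn (s := (l.support : Set ι))
      (Finset.finite_toSet _) |>.subset ?_
    intro k hk
    simpa using hk
  rw [← Nat.cofinite_eq_atTop]
  filter_upwards [h2.compl_mem_cofinite] with k hk
  rw [cc, init_b_right, map_zero]
  simpa using hk

lemma conv_uu (hg : Function.Injective g) (k : ℕ) : Conv (init g) (fun m => uu g (k, m)) 0 := by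
  refine ⟨k + 1, Submodule.zero_mem _, fun m => (uu_mem hg _ _).2 (Nat.lt_succ_self _),
    fun l hl => ?_⟩
  have h1 : Function.Injective fun m => g (k, m + 1) := fun a b h => by
    have := hg h
    simpa using this
  have h2 : {m : ℕ | l (g (k, m + 1)) ≠ 0}.Finite := by
    refine Set.Finite.preimage (f := fun m => g (k, m + 1)) h1.injOn (s := (l.support : Set ι))
      (Finset.finite_toSet _) |>.subset ?_
    intro k hk
    simpa using hk
  rw [← Nat.cofinite_eq_atTop]
  filter_upwards [h2.compl_mem_cofinite] with m hm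
  rw [uu, init_b_right, map_zero]
  simpa using hm

end Pool.Agent.W654.SG
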