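import Pool.Agent.W654.SG.Seq

/-!
# Adding a limit point
-/

set_option autoImplicit false

namespace Pool.Agent.W654.SG

open Filter

variable {ι : Type} {u : ℕ × ℕ → ι →₀ K} {s t : Side ι}

/-- a sequence on which every character is eventually constant -/
def Cauchy (s : Side ι) (a : ℕ → ι →₀ K) : Prop :=
  ∀ l ∈ s.X, ∃ c, ∀ᶠ i in atTop, s.b l (a i) = c

lemma countable_X (h : s.L.Countable) : Countable s.X := by
  have := h.to_subtype
  exact Countable.of_equiv _ (Finsupp.supportedEquivFinsupp (M := K) (R := K) s.L).symm.toEquiv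

/-- a diagonal subsequence -/
lemma exists_cauchy (h : s.OK u) (a : ℕ → ι →₀ K) :
    ∃ φ : ℕ → ℕ, StrictMono φ ∧ Cauchy s (a ∘ φ) := by
  classical
  have := countable_X h.Lc
  let x : ℕ → s.X → Bool := fun i l => decide (s.b l (a i) = 0)
  obtain ⟨y, φ, hφ, hy⟩ := CompactSpace.tendsto_subseq x
  refine ⟨φ, hφ, fun l hl => ?_⟩
  have h1 := (tendsto_pi_nhds.1 hy) ⟨l, hl⟩
  rw [nhds_discrete, tendsto_pure] at h1
  cases hb : y ⟨l, hl⟩ with
  | true =>
    refine ⟨0, ?_⟩
    filter_upwards [h1] with i hi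
    rw [hb] at hi
    simpa [x] using hi
  | false =>
    refine ⟨1, ?_⟩
    filter_upwards [h1] with i hi
    rw [hb] at hi
    have : s.b l (a (φ i)) ≠ 0 := by simpa [x] using hi
    exact K_ne this

/-- add a new basis element `α` as the limit -/
noncomputable def addLim (s : Side ι) (α : ι) (θ : ι → K) (j₀ : ℕ) : Side ι where
  D := insert α s.D
  L := s.L
  c := fun l a => open Classical in if a = α then θ l else s.c l a
  M := fun j => s.M (j + j₀) ⊔ Submodule.span K {Finsupp.single α 1}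

lemma addLim_V (s : Side ι) (α : ι) (θ : ι → K) (j₀ : ℕ) :
    (addLim s α θ j₀).V = s.V ⊔ Submodule.span K {Finsupp.single α 1} := by
  rw [Side.V, Side.V, Finsupp.supported_eq_span_single, Finsupp.supported_eq_span_single]
  change Submodule.span K (_ '' (insert α s.D)) = _
  rw [Set.image_insert_eq, Submodule.span_insert, sup_comm]

lemma single_notMem {D : Set ι} {α : ι} (h : α ∉ D) :
    Finsupp.single α (1 : K) ∉ Finsupp.supported K K D := by
  intro hc
  have hc' : ↑(Finsupp.single α (1 : K)).support ⊆ D := hc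
  exact h (hc' (by simp))

theorem addLimit [Uncountable ι] (h : PairOK u s t) (a : ℕ → ι →₀ K) (j₀ : ℕ)
    (ha : ∀ i, a i ∈ s.M j₀) (hC : Cauchy s a) :
    ∃ s' x, Ext s s' ∧ PairOK u s' t ∧ Conv s' a x := by
  classical
  by_cases hlim : ∃ v ∈ s.V, ∀ l ∈ s.X, ∀ᶠ i in atTop, s.b l (a i) = s.b l v
  · obtain ⟨v, hv, hl⟩ := hlim
    refine ⟨s, v, Ext.refl s, h, j₀, ?_, ha, hl⟩
    by_contra hn
    obtain ⟨l, hlX, h1, h2⟩ := h.ok₁.closed j₀ v hv hn
    obtain ⟨i, hi⟩ := (hl l hlX).exists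
    rw [h1 _ (ha i)] at hi
    exact h2 hi.symm
  push Not at hlim
  obtain ⟨lam, -, hlam⟩ := exists_fresh h.ok₁.Dc
  set α := lam 0 with hα
  have hαD : α ∉ s.D := hlam 0
  have hθ : ∀ l, ∃ c, l ∈ s.L → ∀ᶠ i in atTop, s.b (Finsupp.single l 1) (a i) = c := by
    intro l
    by_cases hl : l ∈ s.L
    · obtain ⟨c, hc⟩ := hC _ (Finsupp.single_mem_supported K _ hl)
      exact ⟨c, fun _ => hc⟩
    · exact ⟨0, fun h => (hl h).elim⟩
  choose θ hθ using hθ
  set s' := addLim s α θ j₀ with hs'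
  set e : ι →₀ K := Finsupp.single α 1 with he
  have heV : e ∉ s.V := single_notMem hαD
  have hX : s'.X = s.X := rfl
  have hM : ∀ j, s'.M j = s.M (j + j₀) ⊔ Submodule.span K {e} := fun j => rfl
  have hV : s'.V = s.V ⊔ Submodule.span K {e} := addLim_V s α θ j₀
  have hVle : s.V ≤ s'.V := by rw [hV]; exact le_sup_left
  have hMV : ∀ j, ∀ x ∈ s.V, x ∈ s'.M j → x ∈ s.M (j + j₀) := by
    intro j x hx hxM
    rw [hM, mem_sup_span_singleton] at hxM
    rcases hxM with h1 | h1
    · exact h1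
    · exfalso
      apply heV
      have := add_mem hx (h.ok₁.Mle _ h1)
      rwa [← add_assoc, V_add_self, zero_add] at this
  have hc : ∀ l, ∀ d ∈ s.D, s'.c l d = s.c l d := by
    intro l d hd
    have : d ≠ α := fun hc => hαD (hc ▸ hd)
    simp [hs', addLim, this]
  have hb : ∀ l ∈ s.X, ∀ v ∈ s.V, s'.b l v = s.b l v := fun l hl v hv =>
    B_congr (fun l _ d hd => hc l d hd) hl hv
  have hbe : ∀ l ∈ s.X, ∀ᶠ i in atTop, s.b l (a i) = s'.b l e := by
    intro l hl
    rw [Side.X, Finsupp.supported_eq_span_single] at hl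
    refine Submodule.span_induction ?_ ?_ ?_ ?_ hl
    · rintro _ ⟨i, hi, rfl⟩
      filter_upwards [hθ i hi] with k hk
      rw [hk]
      have : s'.b (Finsupp.single i 1) e = s'.c i α := B_single_single _ _ _
      rw [this]
      simp [hs', addLim]
    · simp
    · intro x y _ _ h1 h2
      filter_upwards [h1, h2] with k hk1 hk2
      rw [map_add, map_add, LinearMap.add_apply, LinearMap.add_apply, hk1, hk2]
    · intro c x _ h1
      filter_upwards [h1] with k hk1
      rw [map_smul, map_smul, LinearMap.smul_apply, LinearMap.smul_apply, hk1]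
  have hExt : Ext s s' := by
    refine ⟨Set.subset_insert _ _, subset_rfl, fun l _ d hd => hc l d hd, fun j => ⟨j, ?_⟩,
      fun l hl j => ⟨l, hl, fun m hm => hb l hl m (h.ok₁.Mle _ hm)⟩⟩
    rw [hM]
    exact le_sup_of_le_left (h.ok₁.mono (by omega))
  have hok : s'.OK u := by
    refine ⟨h.ok₁.Dc.insert _, h.ok₁.Lc, fun j => ?_, fun i j hij => ?_, fun v hv => ?_,
      fun v hv hv0 => ?_, fun j y hy hyj => ?_, fun p => hVle (h.ok₁.base p), fun j n => ?_⟩
    · rw [hM, hV]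
      exact sup_le_sup_right (h.ok₁.Mle _) _
    · rw [hM, hM]
      exact sup_le_sup_right (h.ok₁.mono (by omega)) _
    · rw [hV, mem_sup_span_singleton] at hv
      rcases hv with hv | hv
      · obtain ⟨j, hj⟩ := h.ok₁.cov v hv
        refine ⟨j, ?_⟩
        rw [hM, mem_sup_span_singleton]
        exact Or.inl (h.ok₁.mono (by omega) hj)
      · obtain ⟨j, hj⟩ := h.ok₁.cov _ hv
        refine ⟨j, ?_⟩
        rw [hM, mem_sup_span_singleton]
        exact Or.inr (h.ok₁.mono (by omega) hj)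
    · rw [hV, mem_sup_span_singleton] at hv
      rcases hv with hv | hv
      · obtain ⟨l, hl, h1⟩ := h.ok₁.sep v hv hv0
        exact ⟨l, hl, by rwa [hb l hl v hv]⟩
      · obtain ⟨l, hl, h1⟩ := hlim _ hv
        refine ⟨l, hl, fun hc0 => h1 ?_⟩
        have h2 : s.b l (v + e) = s'.b l e := by
          rw [← hb l hl _ hv, map_add, hc0, zero_add]
        filter_upwards [hbe l hl] with k hk
        rw [hk, h2]
        exact fun h => h rfl
    · rw [hM, mem_sup_span_singleton, not_or] at hyj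
      have key : ∀ v ∈ s.V, v ∉ s.M (j + j₀) → (v = y ∨ v = y + e) →
          ∃ l ∈ s'.X, (∀ m ∈ s'.M j, s'.b l m = 0) ∧ s'.b l y ≠ 0 := by
        intro v hv hvn hvy
        obtain ⟨l, hl, h1, h2⟩ := h.ok₁.closed _ v hv hvn
        have h3 : s'.b l e = 0 := by
          obtain ⟨k, hk⟩ := (hbe l hl).exists
          rw [← hk]
          exact h1 _ (h.ok₁.mono (by omega) (ha k))
        refine ⟨l, hl, fun m hm => ?_, ?_⟩
        · rw [hM, mem_sup_span_singleton] at hm
          rcases hm with hm | hm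
          · rw [hb l hl m (h.ok₁.Mle _ hm)]
            exact h1 m hm
          · have h4 := h1 _ hm
            rw [← hb l hl _ (h.ok₁.Mle _ hm), map_add, h3, add_zero] at h4
            exact h4
        · rcases hvy with rfl | rfl
          · rwa [hb l hl _ hv]
          · rw [← hb l hl _ hv, map_add, h3, add_zero] at h2
            exact h2
      rw [hV, mem_sup_span_singleton] at hy
      rcases hy with hy | hy
      · exact key y hy hyj.1 (Or.inl rfl)
      · exact key _ hy hyj.2 (Or.inr rfl)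
    · obtain ⟨P, hP⟩ := h.ok₁.LI (j + j₀) n
      refine ⟨P, fun F hF hFM p hp => ?_⟩
      have h1 := hMV j _ (Submodule.sum_mem _ fun q _ => h.ok₁.base q) hFM
      rcases hP F hF h1 p hp with h2 | h2
      · exact Or.inl h2
      · right
        rw [hM]
        exact Submodule.mem_sup_left h2
  refine ⟨s', e, hExt, h.left hExt hok fun j => ?_, 0, ?_, fun i => ?_, fun l hl => ?_⟩
  · refine ((h.J₁ (j + j₀)).ext h.ok₁.base h.ok₂.base hExt (Ext.refl t)).mono ?_
    intro p hp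
    exact hMV j _ (h.ok₁.base p) hp
  · rw [hM]
    exact Submodule.mem_sup_right (Submodule.mem_span_singleton_self _)
  · rw [hM]
    exact Submodule.mem_sup_left (h.ok₁.mono (by omega) (ha i))
  · filter_upwards [hbe l hl] with k hk
    rw [← hk, hb l hl _ (h.ok₁.Mle _ (ha k))]

/-- a subsequence of `a` is made convergent -/
theorem step_conv [Uncountable ι] (h : PairOK u s t) (a : ℕ → ι →₀ K) (ha : ∀ i, a i ∈ s.V) :
    ∃ (s' t' : Side ι) (φ : ℕ → ℕ) (x : ι →₀ K), Ext s s' ∧ Ext t t' ∧ PairOK u s' t' ∧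
      StrictMono φ ∧ Conv s' (a ∘ φ) x ∧
      ((∀ l ∈ s.X, ∀ᶠ i in atTop, s.b l (a i) = 0) → x = 0) := by
  obtain ⟨φ₀, hφ₀, hC⟩ := exists_cauchy h.ok₁ a
  obtain ⟨s₁, t₁, φ₁, j, e₁, f₁, h₁, hφ₁, hj, hR⟩ := frozen_seq h (a ∘ φ₀) fun i => ha _
  have hC1 : Cauchy s₁ ((a ∘ φ₀) ∘ φ₁) := by
    intro l hl
    obtain ⟨l', hl', h2⟩ := hR l hl
    obtain ⟨c, hc⟩ := hC l' hl'
    refine ⟨c, ?_⟩
    filter_upwards [hφ₁.tendsto_atTop.eventually hc] with i hi
    rw [Function.comp, h2 i, hi]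
  obtain ⟨s₂, x, e₂, h₂, hx⟩ := addLimit h₁ ((a ∘ φ₀) ∘ φ₁) j hj hC1
  refine ⟨s₂, t₁, φ₀ ∘ φ₁, x, e₁.trans e₂, f₁, h₂, hφ₀.comp hφ₁, hx, fun hnull => ?_⟩
  by_contra hx0
  obtain ⟨k, hxk, hak, hl⟩ := hx
  obtain ⟨l, hlX, h3⟩ := h₂.ok₁.sep x (h₂.ok₁.Mle _ hxk) hx0
  obtain ⟨l', hl', h4⟩ := e₂.R l hlX j
  obtain ⟨l'', hl'', h5⟩ := hR l' hl'
  obtain ⟨i, hi, hi'⟩ := (((hφ₀.comp hφ₁).tendsto_atTop.eventually (hnull l'' hl'')).and
    (hl l hlX)).exists
  have h6 := h4 _ (hj i)
  have h7 := h5 i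
  simp only [Function.comp] at hi hi' h6 h7
  rw [h7, hi, hi'] at h6
  exact h3 h6

end Pool.Agent.W654.SG
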