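import Mathlib

/-!
# General topology: products of sequential spaces, countable compactness
-/

set_option autoImplicit false

namespace Pool.Agent.W654.SG

open Filter Topology

/-- every countable open cover has a finite subcover -/
def CountablyCompact (X : Type) [TopologicalSpace X] : Prop :=
  ∀ U : ℕ → Set X, (∀ n, IsOpen (U n)) → (⋃ n, U n) = Set.univ →
    ∃ F : Finset ℕ, (⋃ n ∈ F, U n) = Set.univ

lemma countablyCompact_of_seqCompact (X : Type) [TopologicalSpace X] [SeqCompactSpace X] :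
    CountablyCompact X := by
  intro U hU hcov
  by_contra hc
  push Not at hc
  have h1 : ∀ n : ℕ, ∃ x : X, ∀ k < n, x ∉ U k := by
    intro n
    have := hc (Finset.range n)
    rw [Set.ne_univ_iff_exists_notMem] at this
    obtain ⟨x, hx⟩ := this
    refine ⟨x, fun k hk hxk => hx ?_⟩
    exact Set.mem_biUnion (Finset.mem_coe.2 (Finset.mem_range.2 hk)) hxk
  choose x hx using h1
  obtain ⟨a, φ, hφ, ha⟩ := SeqCompactSpace.tendsto_subseq x
  have : a ∈ ⋃ n, U n := by rw [hcov]; trivial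
  obtain ⟨k, hk⟩ := Set.mem_iUnion.1 this
  obtain ⟨n, hn, hn'⟩ := ((ha.eventually ((hU k).mem_nhds hk)).and
    (hφ.tendsto_atTop.eventually (eventually_gt_atTop k))).exists
  exact hx (φ n) k hn' hn

instance seqCompact_prod (X Y : Type) [TopologicalSpace X] [TopologicalSpace Y]
    [SeqCompactSpace X] [SeqCompactSpace Y] : SeqCompactSpace (X × Y) := by
  refine ⟨fun z _ => ?_⟩
  obtain ⟨a, φ, hφ, ha⟩ := SeqCompactSpace.tendsto_subseq fun n => (z n).1
  obtain ⟨b, ψ, hψ, hb⟩ := SeqCompactSpace.tendsto_subseq fun n => (z (φ n)).2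
  refine ⟨(a, b), trivial, φ ∘ ψ, hφ.comp hψ, ?_⟩
  exact (ha.comp hψ.tendsto_atTop).prodMk_nhds hb

/-- the product of two sequential spaces, one of them regular and sequentially compact, is
sequential (Boehme) -/
theorem sequential_prod (X Y : Type) [TopologicalSpace X] [TopologicalSpace Y]
    [SequentialSpace X] [SequentialSpace Y] [RegularSpace Y] [SeqCompactSpace Y] :
    SequentialSpace (X × Y) := by
  refine ⟨fun S hS => ?_⟩
  rw [← isOpen_compl_iff, isOpen_iff_mem_nhds]
  rintro ⟨x, y⟩ hxy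
  have h1 : IsClosed {y' : Y | (x, y') ∈ S} := by
    apply SequentialSpace.isClosed_of_seq
    intro w y' hw hy'
    exact hS hw (tendsto_const_nhds.prodMk_nhds hy')
  obtain ⟨C, hC, hCcl, hCS⟩ := exists_mem_nhds_isClosed_subset
    (h1.isOpen_compl.mem_nhds (x := y) hxy)
  have h2 : IsClosed {x' : X | ∃ y' ∈ C, (x', y') ∈ S} := by
    apply SequentialSpace.isClosed_of_seq
    intro w x' hw hx'
    choose v hv hvS using hw
    obtain ⟨b, ψ, hψ, hb⟩ := SeqCompactSpace.tendsto_subseq v
    refine ⟨b, hCcl.mem_of_tendsto hb (Eventually.of_forall fun n => hv _), ?_⟩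
    exact hS (fun n => hvS (ψ n)) ((hx'.comp hψ.tendsto_atTop).prodMk_nhds hb)
  have h3 : x ∉ {x' : X | ∃ y' ∈ C, (x', y') ∈ S} := by
    rintro ⟨y', hy', hS'⟩
    exact hCS hy' hS'
  filter_upwards [prod_mem_nhds (h2.isOpen_compl.mem_nhds h3) hC]
  rintro ⟨x', y'⟩ ⟨hx', hy'⟩ hS'
  exact hx' ⟨y', hy', hS'⟩

end Pool.Agent.W654.SG
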