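import Pool.Agent.W654.SG.Fin
import Pool.Agent.W654.SG.Top

/-!
# The square of the construction is not Fréchet–Urysohn
-/

set_option autoImplicit false

namespace Pool.Agent.W654.SG

open Filter Topology

open Pool.Agent.Helper292.ForceCH (Om countable_Iio exists_bound ub lt_ub ub_le)

section

variable {g : ℕ × ℕ → Om} {q₀ : Stage (uu g)} {A : Om → Set (Om →₀ K)} {b : Om → Bool}
  {q p : Om → Stage (uu g)} {e : (Om →₀ K) → Om}

lemma Run.run1_s (R : Run (uu g) q₀ A b q p) :
    Run1 (uu g) A b false (fun δ => (q δ).s) (fun δ => (p δ).s) where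
  okq := fun δ => (q δ).ok.ok₁
  okp := fun δ => (p δ).ok.ok₁
  le := fun β δ h => (R.le β δ h).1
  qp := fun δ => (R.hand δ).es
  D := fun δ h => (R.lim δ h).sD
  L := fun δ h => (R.lim δ h).sL
  null := fun δ => (R.hand δ).null₁
  conv := fun δ => (R.hand δ).conv₁

lemma Run.run1_t (R : Run (uu g) q₀ A b q p) :
    Run1 (uu g) A b true (fun δ => (q δ).t) (fun δ => (p δ).t) where
  okq := fun δ => (q δ).ok.ok₂
  okp := fun δ => (p δ).ok.ok₂
  le := fun β δ h => (R.le β δ h).2
  qp := fun δ => (R.hand δ).et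
  D := fun δ h => (R.lim δ h).tD
  L := fun δ h => (R.lim δ h).tL
  null := fun δ => (R.hand δ).null₂
  conv := fun δ => (R.hand δ).conv₂

/-- one side of the run starts with the initial side -/
structure Start (g : ℕ × ℕ → Om) (p : Om → Side Om) : Prop where
  coh : Coh p
  Mle : ∀ δ j, (p δ).M j ≤ (p δ).V
  ext : ∀ δ, Ext (init g) (p δ)

variable {P : Om → Side Om}

lemma init_V_le (S : Start g P) : (init g).V ≤ (fin P).V :=
  (S.ext (Classical.arbitrary Om)).V.trans (V_le_fin P _)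

lemma uu_memV (p : ℕ × ℕ) : uu g p ∈ (init g).V := Finsupp.single_mem_supported K _ ⟨_, rfl⟩

lemma cc_memV (k : ℕ) : cc g k ∈ (init g).V := Finsupp.single_mem_supported K _ ⟨_, rfl⟩

lemma Start.tendsto (S : Start g P) {a : ℕ → Om →₀ K} {x : Om →₀ K} (h : Conv (init g) a x) :
    Tendsto (fun i => Phi P (a i)) atTop (𝓝 (Phi P x)) :=
  tendsto_of_conv S.coh S.Mle (h.ext (S.ext (Classical.arbitrary Om)))

lemma Start.b_init (S : Start g P) {l v : Om →₀ K} (hl : l ∈ (init g).X) (hv : v ∈ (init g).V) :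
    (fin P).b l v = (init g).b l v := by
  have e := S.ext (Classical.arbitrary Om)
  rw [fin_b S.coh (e.X hl) (e.V hv), e.b hl hv]

/-- if the points converge to the origin then the columns tend to infinity -/
lemma Start.columns (S : Start g P) (hg : Function.Injective g) {w : ℕ → ℕ × ℕ}
    (h : Tendsto (fun n => Phi P (cc g (w n).1 + uu g (w n))) atTop (𝓝 (Phi P 0))) :
    Tendsto (fun n => (w n).1) atTop atTop := by
  have h1 : ∀ k, ∀ᶠ n in atTop, (w n).1 ≠ k := by
    intro k
    have hl : Finsupp.single (g (k, 0)) (1 : K) ∈ (init g).X :=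
      Finsupp.single_mem_supported K _ ⟨_, rfl⟩
    filter_upwards [eventually_b h (Finsupp.single (g (k, 0)) 1)] with n hn hk
    rw [map_zero, S.b_init hl (add_mem (cc_memV _) (uu_memV _)), init_b_left] at hn
    simp only [cc, uu, Finsupp.add_apply] at hn
    rw [hk, Finsupp.single_eq_same, Finsupp.single_eq_of_ne] at hn
    · simp at hn
    · intro hc
      have := hg hc
      simp at this
  rw [tendsto_atTop]
  intro m
  have h2 : ∀ᶠ n in atTop, ∀ k ∈ Finset.range m, (w n).1 ≠ k := by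
    rw [Filter.eventually_all_finset]
    exact fun k _ => h1 k
  filter_upwards [h2] with n hn
  by_contra hc
  exact hn (w n).1 (Finset.mem_range.2 (not_le.1 hc)) rfl

lemma Start.null (S : Start g P) (hg : Function.Injective g) {w : ℕ → ℕ × ℕ}
    (h : Tendsto (fun n => Phi P (cc g (w n).1 + uu g (w n))) atTop (𝓝 (Phi P 0))) :
    Tendsto (fun n => Phi P (uu g (w n))) atTop (𝓝 (Phi P 0)) := by
  have h1 := (S.tendsto (conv_cc hg)).comp (S.columns hg h)
  have h2 := h.add h1
  rw [map_zero, add_zero] at h2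
  rw [map_zero]
  refine h2.congr fun n => ?_
  simp only [Function.comp]
  rw [← map_add, add_right_comm, V_add_self, zero_add]

lemma uu_injective (hg : Function.Injective g) : Function.Injective (uu g) := by
  intro p p' h
  have h1 := Finsupp.single_left_injective (one_ne_zero (α := K)) h
  have h2 := hg h1
  rw [Prod.mk.injEq] at h2
  exact Prod.ext h2.1 (by omega)

theorem not_both_null (R : Run (uu g) q₀ A b q p) (hG : Guessing A b e)
    (hs : q₀.s = init g) (hg : Function.Injective g) (w : ℕ → ℕ × ℕ)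
    (h1 : Tendsto (fun n => Phi (fun δ => (p δ).s) (uu g (w n))) atTop
      (𝓝 (Phi (fun δ => (p δ).s) 0)))
    (h2 : Tendsto (fun n => Phi (fun δ => (p δ).t) (uu g (w n))) atTop
      (𝓝 (Phi (fun δ => (p δ).t) 0)))
    (hw : Tendsto (fun n => (w n).1) atTop atTop) : False := by
  classical
  obtain ⟨F₂, hF₂⟩ := R.run1_s.exists_F e
  obtain ⟨δ, hδ, hcl, -, hmem⟩ := hG (Set.range fun n => uu g (w n)) true F₂
  have hV : ∀ p, uu g p ∈ (q δ).s.V := fun p => (R.start δ).1.V (by rw [hs]; exact uu_memV p)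
  have hiff : ∀ p, uu g p ∈ A δ ↔ uu g p ∈ Set.range fun n => uu g (w n) := fun p =>
    hmem _ (hF₂ δ hδ hcl _ (hV p))
  have hinf : {p | uu g p ∈ A δ}.Infinite := by
    intro hfin
    obtain ⟨m, hm⟩ := (hfin.image Prod.fst).bddAbove
    obtain ⟨n, hn⟩ := (hw.eventually (eventually_gt_atTop m)).exists
    have : (w n).1 ≤ m := hm ⟨w n, (hiff _).2 ⟨n, rfl⟩, rfl⟩
    omega
  obtain ⟨f, hf, hfA, E, F, k, hE, hF, hgood⟩ := (R.hand δ).good hinf
  have hE1 : ∀ᶠ n in atTop, ∀ l ∈ E, (p δ).s.b l (uu g (w n)) = 0 := by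
    rw [Filter.eventually_all_finset]
    intro l hl
    filter_upwards [eventually_b h1 l] with n hn
    rwa [map_zero, fin_b R.run1_s.coh (hE l hl) ((R.hand δ).es.V (hV _))] at hn
  have hVt : ∀ p', uu g p' ∈ (p δ).t.V := fun p' => (p δ).ok.ok₂.base p'
  have hF1 : ∀ᶠ n in atTop, ∀ l ∈ F, (p δ).t.b l (uu g (w n)) = 0 := by
    rw [Filter.eventually_all_finset]
    intro l hl
    filter_upwards [eventually_b h2 l] with n hn
    rwa [map_zero, fin_b R.run1_t.coh (hF l hl) (hVt _)] at hn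
  obtain ⟨N, hN⟩ := eventually_atTop.1 ((hE1.and hF1).and (hw.eventually (eventually_ge_atTop k)))
  refine hf (((Finset.range N).image w).finite_toSet.subset fun p' hp' => ?_)
  obtain ⟨n, hn⟩ := (hiff p').1 (hfA hp')
  have hn' : w n = p' := uu_injective hg hn
  rw [← hn'] at hp' ⊢
  by_contra hc
  have hnN : N ≤ n := by
    by_contra hlt
    exact hc (Finset.mem_coe.2 (Finset.mem_image_of_mem _ (Finset.mem_range.2 (not_le.1 hlt))))
  obtain ⟨⟨a1, a2⟩, a3⟩ := hN n hnN
  rcases hgood _ hp' a3 with ⟨l, hl, h⟩ | ⟨l, hl, h⟩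
  · exact h (a1 l hl)
  · exact h (a2 l hl)

end

/-- the two groups -/
theorem exists_groups (hD : Diamond) : ∃ G₁ G₂ : AddSubgroup (Om → K),
    FrechetUrysohnSpace G₁ ∧ SeqCompactSpace G₁ ∧ FrechetUrysohnSpace G₂ ∧ SeqCompactSpace G₂ ∧
    ¬ FrechetUrysohnSpace (G₁ × G₂) := by
  classical
  obtain ⟨A, b, e, hG⟩ := exists_guess hD
  obtain ⟨g, hg⟩ : ∃ g : ℕ × ℕ → Om, Function.Injective g :=
    ⟨_, (Infinite.natEmbedding Om).injective.comp (Encodable.encode_injective (α := ℕ × ℕ))⟩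
  obtain ⟨q, p, R⟩ := exists_run (⟨init g, init g, init_pair hg⟩ : Stage (uu g)) A b
  have R1 := R.run1_s
  have R2 := R.run1_t
  set P : Om → Side Om := fun δ => (p δ).s with hP
  set Q : Om → Side Om := fun δ => (p δ).t with hQ
  have S1 : Start g P := ⟨R1.coh, fun δ => (R1.okp δ).Mle,
    fun δ => (R.start δ).1.trans (R.hand δ).es⟩
  have S2 : Start g Q := ⟨R2.coh, fun δ => (R2.okp δ).Mle,
    fun δ => (R.start δ).2.trans (R.hand δ).et⟩
  refine ⟨GG P, GG Q, R1.frechet hG, R1.seqCompact hG, R2.frechet hG, R2.seqCompact hG, ?_⟩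
  intro hFU
  have hm1 : ∀ v ∈ (init g).V, Phi P v ∈ GG P := fun v hv => ⟨v, init_V_le S1 hv, rfl⟩
  have hm2 : ∀ v ∈ (init g).V, Phi Q v ∈ GG Q := fun v hv => ⟨v, init_V_le S2 hv, rfl⟩
  let pt : (init g).V → GG P × GG Q := fun v => (⟨Phi P v, hm1 v v.2⟩, ⟨Phi Q v, hm2 v v.2⟩)
  have hpt : ∀ (a : ℕ → (init g).V) (x : (init g).V),
      Tendsto (fun i => Phi P (a i)) atTop (𝓝 (Phi P x)) →
      Tendsto (fun i => Phi Q (a i)) atTop (𝓝 (Phi Q x)) →
      Tendsto (fun i => pt (a i)) atTop (𝓝 (pt x)) := by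
    intro a x h1 h2
    refine Tendsto.prodMk_nhds ?_ ?_
    · rw [tendsto_subtype_rng]; exact h1
    · rw [tendsto_subtype_rng]; exact h2
  let d : ℕ × ℕ → (init g).V := fun w => ⟨cc g w.1 + uu g w, add_mem (cc_memV _) (uu_memV _)⟩
  have hcl : pt 0 ∈ closure (Set.range fun w => pt (d w)) := by
    have h1 : ∀ k, pt ⟨cc g k, cc_memV k⟩ ∈ closure (Set.range fun w => pt (d w)) := by
      intro k
      refine mem_closure_of_tendsto (hpt (fun m => d (k, m)) ⟨cc g k, cc_memV k⟩ ?_ ?_)
        (Eventually.of_forall fun m => ⟨(k, m), rfl⟩)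
      · have := (S1.tendsto (conv_uu hg k)).const_add (Phi P (cc g k))
        simpa only [map_zero, add_zero, ← map_add] using this
      · have := (S2.tendsto (conv_uu hg k)).const_add (Phi Q (cc g k))
        simpa only [map_zero, add_zero, ← map_add] using this
    rw [← closure_closure]
    exact mem_closure_of_tendsto (hpt (fun k => ⟨cc g k, cc_memV k⟩) 0
      (S1.tendsto (conv_cc hg)) (S2.tendsto (conv_cc hg))) (Eventually.of_forall h1)
  obtain ⟨x, hx, hx0⟩ := hFU.closure_subset_seqClosure _ hcl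
  choose w hw using hx
  have hx0' : Tendsto (fun n => pt (d (w n))) atTop (𝓝 (pt 0)) := by
    refine hx0.congr fun n => ?_
    rw [← hw n]
  have h1 : Tendsto (fun n => Phi P (cc g (w n).1 + uu g (w n))) atTop (𝓝 (Phi P 0)) := by
    have := (continuous_fst.tendsto _).comp hx0'
    exact tendsto_subtype_rng.1 this
  have h2 : Tendsto (fun n => Phi Q (cc g (w n).1 + uu g (w n))) atTop (𝓝 (Phi Q 0)) := by
    have := (continuous_snd.tendsto _).comp hx0'
    exact tendsto_subtype_rng.1 this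
  exact not_both_null R hG rfl hg w (S1.null hg h1) (S2.null hg h2) (S1.columns hg h1)

end Pool.Agent.W654.SG
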