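import Pool.Agent.W654.SG.Dia
import Pool.Agent.W654.SG.Init

/-!
# The recursion of length `ω₁`
-/

set_option autoImplicit false

namespace Pool.Agent.W654.SG

open Filter

open Pool.Agent.Helper292.ForceCH (Om countable_Iio exists_bound ub lt_ub ub_le)

/-- a stage of the construction -/
structure Stage (u : ℕ × ℕ → Om →₀ K) where
  s : Side Om
  t : Side Om
  ok : PairOK u s t

variable {u : ℕ × ℕ → Om →₀ K}

/-- extension of stages -/
def Stage.Le (q q' : Stage u) : Prop := Ext q.s q'.s ∧ Ext q.t q'.t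

lemma Stage.Le.trans {q q' q'' : Stage u} (h : q.Le q') (h' : q'.Le q'') : q.Le q'' :=
  ⟨h.1.trans h'.1, h.2.trans h'.2⟩

/-- `q` is the union of the earlier stages -/
structure IsLim (δ : Om) (f : ∀ β < δ, Stage u) (q : Stage u) : Prop where
  le : ∀ β (h : β < δ), (f β h).Le q
  sD : q.s.D = ⋃ β, ⋃ h : β < δ, (f β h).s.D
  sL : q.s.L = ⋃ β, ⋃ h : β < δ, (f β h).s.L
  tD : q.t.D = ⋃ β, ⋃ h : β < δ, (f β h).t.D
  tL : q.t.L = ⋃ β, ⋃ h : β < δ, (f β h).t.L

lemma exists_lim (δ : Om) (hδ : ∃ β, β < δ) (f : ∀ β < δ, Stage u)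
    (hf : ∀ β γ (hβ : β < δ) (hγ : γ < δ), β < γ → (f β hβ).Le (f γ hγ)) :
    ∃ q, IsLim δ f q := by
  have h1 : Countable {β : Om // β < δ} := countable_Iio δ
  have h2 : Nonempty {β : Om // β < δ} := by
    obtain ⟨β, hβ⟩ := hδ
    exact ⟨⟨β, hβ⟩⟩
  obtain ⟨x, hx1, hx2⟩ := exists_seq_monotone_tendsto_atTop_atTop {β : Om // β < δ}
  have hcof : ∀ β : {β : Om // β < δ}, ∃ n, β ≤ x n := fun β =>
    (hx2.eventually (eventually_ge_atTop β)).exists
  set p : {β : Om // β < δ} → Stage u := fun β => f β.1 β.2 with hp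
  have hle : ∀ {β γ : {β : Om // β < δ}}, β ≤ γ → (p β).Le (p γ) := by
    intro β γ h
    rcases h.lt_or_eq with h | h
    · exact hf _ _ β.2 γ.2 h
    · rw [h]; exact ⟨Ext.refl _, Ext.refl _⟩
  obtain ⟨s, t, ok, hs, ht, hsD, hsL, htD, htL⟩ := union_pair (u := u)
    (σ := fun n => (p (x n)).s) (τ := fun n => (p (x n)).t) (fun n => (p (x n)).ok)
    (fun n => (hle (hx1 (Nat.le_succ n))).1) (fun n => (hle (hx1 (Nat.le_succ n))).2)
  have hU : ∀ (D : Stage u → Set Om) (_ : ∀ q q' : Stage u, q.Le q' → D q ⊆ D q'),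
      ⋃ n, D (p (x n)) = ⋃ β, ⋃ h : β < δ, D (f β h) := by
    intro D hD
    apply Set.Subset.antisymm
    · refine Set.iUnion_subset fun n => ?_
      exact Set.subset_iUnion₂ (s := fun β (h : β < δ) => D (f β h)) (x n).1 (x n).2
    · refine Set.iUnion₂_subset fun β hβ => ?_
      obtain ⟨n, hn⟩ := hcof ⟨β, hβ⟩
      exact (hD _ _ (hle hn)).trans (Set.subset_iUnion (fun n => D (p (x n))) n)
  refine ⟨⟨s, t, ok⟩, fun β hβ => ?_, ?_, ?_, ?_, ?_⟩
  · obtain ⟨n, hn⟩ := hcof ⟨β, hβ⟩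
    exact (hle hn).trans ⟨hs n, ht n⟩
  · exact hsD.trans (hU (fun q => q.s.D) fun q q' h => h.1.D)
  · exact hsL.trans (hU (fun q => q.s.L) fun q q' h => h.1.L)
  · exact htD.trans (hU (fun q => q.t.D) fun q q' h => h.2.D)
  · exact htL.trans (hU (fun q => q.t.L) fun q q' h => h.2.L)

/-- the sequence of the stages: `q δ` is the union of the `p β` for `β < δ`, and `p δ` handles the
guess -/
structure Run (u : ℕ × ℕ → Om →₀ K) (q₀ : Stage u) (A : Om → Set (Om →₀ K)) (b : Om → Bool)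
    (q p : Om → Stage u) : Prop where
  le : ∀ β δ, β < δ → (p β).Le (q δ)
  start : ∀ δ, q₀.Le (q δ)
  lim : ∀ δ, (∃ β, β < δ) → IsLim δ (fun β _ => p β) (q δ)
  hand : ∀ δ, Handled u (q δ).s (q δ).t (p δ).s (p δ).t (A δ) (b δ)

theorem exists_run (q₀ : Stage u) (A : Om → Set (Om →₀ K)) (b : Om → Bool) :
    ∃ q p, Run u q₀ A b q p := by
  classical
  have hnext : ∀ (q : Stage u) (A : Set (Om →₀ K)) (b : Bool), ∃ p : Stage u,
      Handled u q.s q.t p.s p.t A b := by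
    intro q A b
    obtain ⟨s', t', ok, h⟩ := handle q.ok A b
    exact ⟨⟨s', t', ok⟩, h⟩
  choose nx hnx using hnext
  let lim : ∀ δ : Om, (∀ β < δ, Stage u) → Stage u := fun δ f =>
    if h : (∃ β, β < δ) ∧ ∃ q, IsLim δ f q then h.2.choose else q₀
  let p : Om → Stage u := (wellFounded_lt (α := Om)).fix
    (fun δ f => nx (lim δ f) (A δ) (b δ))
  let q : Om → Stage u := fun δ => lim δ (fun β _ => p β)
  have hp : ∀ δ, p δ = nx (q δ) (A δ) (b δ) := fun δ =>
    (wellFounded_lt (α := Om)).fix_eq _ δ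
  have hand : ∀ δ, Handled u (q δ).s (q δ).t (p δ).s (p δ).t (A δ) (b δ) := by
    intro δ
    rw [hp]
    exact hnx _ _ _
  have hqp : ∀ δ, (q δ).Le (p δ) := fun δ => ⟨(hand δ).es, (hand δ).et⟩
  have main : ∀ δ, (∃ β, β < δ) → IsLim δ (fun β _ => p β) (q δ) := by
    intro δ
    induction δ using (wellFounded_lt (α := Om)).induction with
    | _ δ ih =>
      intro hδ
      have hex : ∃ q, IsLim δ (fun β _ => p β) q := by
        apply exists_lim δ hδ
        intro β γ hβ hγ hβγ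
        exact ((ih γ hγ ⟨β, hβγ⟩).le β hβγ).trans (hqp γ)
      have h : (∃ β, β < δ) ∧ ∃ q, IsLim δ (fun β _ => p β) q := ⟨hδ, hex⟩
      have h1 : q δ = h.2.choose := dif_pos h
      rw [h1]
      exact h.2.choose_spec
  refine ⟨q, p, fun β δ h => (main δ ⟨β, h⟩).le β h, ?_, main, hand⟩
  intro δ
  induction δ using (wellFounded_lt (α := Om)).induction with
  | _ δ ih =>
    by_cases hδ : ∃ β, β < δ
    · obtain ⟨β, hβ⟩ := hδ
      exact ((ih β hβ).trans (hqp β)).trans ((main δ ⟨β, hβ⟩).le β hβ)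
    · have h1 : q δ = q₀ := dif_neg fun h => hδ h.1
      rw [h1]
      exact ⟨Ext.refl _, Ext.refl _⟩

end Pool.Agent.W654.SG
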