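import Pool.Agent.W654.SG.Freeze

/-!
# Freezing a subsequence of a given sequence
-/

set_option autoImplicit false

namespace Pool.Agent.W654.SG

open Filter

variable {ι : Type} {u : ℕ × ℕ → ι →₀ K} {s t : Side ι}

/-- passing to a cofinal part of the frozen subgroups -/
def Side.sub (s : Side ι) (r : ℕ → ℕ) : Side ι := { s with M := fun k => s.M (r k) }

lemma sub_ok (h : s.OK u) {r : ℕ → ℕ} (hr : StrictMono r) : (s.sub r).OK u where
  Dc := h.Dc
  Lc := h.Lc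
  Mle := fun j => h.Mle (r j)
  mono := fun _ _ hij => h.mono (hr.monotone hij)
  cov := fun v hv => by
    obtain ⟨j, hj⟩ := h.cov v hv
    exact ⟨j, h.mono (hr.id_le j) hj⟩
  sep := h.sep
  closed := fun j => h.closed (r j)
  base := h.base
  LI := fun j n => h.LI (r j) n

lemma sub_ext (h : s.OK u) {r : ℕ → ℕ} (hr : StrictMono r) : Ext s (s.sub r) where
  D := subset_rfl
  L := subset_rfl
  c := fun _ _ _ _ => rfl
  M := fun j => ⟨j, h.mono (hr.id_le j)⟩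
  R := fun l hl _ => ⟨l, hl, fun _ _ => rfl⟩

lemma PairOK.left {s' : Side ι} (h : PairOK u s t) (e : Ext s s') (ok : s'.OK u)
    (hJ : ∀ j, Good u s' t {p | u p ∈ s'.M j}) : PairOK u s' t :=
  ⟨ok, h.ok₂, hJ, fun j => (h.J₂ j).ext h.ok₁.base h.ok₂.base e (Ext.refl t)⟩

lemma PairOK.right {t' : Side ι} (h : PairOK u s t) (e : Ext t t') (ok : t'.OK u)
    (hM : t'.M = t.M) : PairOK u s t' :=
  ⟨h.ok₁, ok, fun j => (h.J₁ j).ext h.ok₁.base h.ok₂.base (Ext.refl s) e, fun j => by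
    rw [hM]
    exact (h.J₂ j).ext h.ok₁.base h.ok₂.base (Ext.refl s) e⟩

/-- sparse selection -/
lemma select (Req : ℕ → ℕ → ℕ → Prop) (h : ∀ r k, ∀ᶠ i in atTop, Req r k i) (b : ℕ → ℕ)
    (r₀ : ℕ) : ∃ φ r : ℕ → ℕ, StrictMono φ ∧ StrictMono r ∧ r 0 = r₀ ∧
      ∀ k, Req (r k) k (φ k) ∧ b (φ k) ≤ r (k + 1) := by
  have step : ∀ (k : ℕ) (q : ℕ × ℕ), ∃ q' : ℕ × ℕ, q.1 < q'.1 ∧ q.2 < q'.2 ∧ b q.1 ≤ q'.2 ∧
      Req q'.2 (k + 1) q'.1 := by
    rintro k ⟨i, r⟩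
    obtain ⟨i', h1, h2⟩ := ((h (max (r + 1) (b i)) (k + 1)).and (eventually_gt_atTop i)).exists
    exact ⟨(i', max (r + 1) (b i)), h2, by simp, by simp, h1⟩
  choose g hg using step
  obtain ⟨i₀, hi₀⟩ := (h r₀ 0).exists
  obtain ⟨q, hq0, hq⟩ : ∃ q : ℕ → ℕ × ℕ, q 0 = (i₀, r₀) ∧ ∀ k, q (k + 1) = g k (q k) :=
    ⟨fun k => Nat.rec (i₀, r₀) (fun k q => g k q) k, rfl, fun k => rfl⟩
  refine ⟨fun k => (q k).1, fun k => (q k).2, strictMono_nat_of_lt_succ fun k => ?_,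
    strictMono_nat_of_lt_succ fun k => ?_, by simp [hq0], fun k => ⟨?_, ?_⟩⟩
  · simp only [hq]; exact (hg k (q k)).1
  · simp only [hq]; exact (hg k (q k)).2.1
  · cases k with
    | zero => simp only [hq0]; exact hi₀
    | succ k => simp only [hq]; exact (hg k (q k)).2.2.2
  · simp only [hq]; exact (hg k (q k)).2.2.1

lemma mem_span_singleton_iff {z y : ι →₀ K} (h : y ∈ Submodule.span K {z}) : y = 0 ∨ y = z := by
  obtain ⟨c, rfl⟩ := Submodule.mem_span_singleton.1 h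
  rcases K_cases c with rfl | rfl
  · left; simp
  · right; simp

lemma mem_span_image_iff {F : Finset (ℕ × ℕ)} {y : ι →₀ K}
    (h : y ∈ Submodule.span K (u '' (F : Set (ℕ × ℕ)))) :
    ∃ G : Finset (ℕ × ℕ), G ⊆ F ∧ y = ∑ p ∈ G, u p := by
  classical
  refine Submodule.span_induction ?_ ?_ ?_ ?_ h
  · rintro _ ⟨p, hp, rfl⟩
    exact ⟨{p}, by simpa using hp, by simp⟩
  · exact ⟨∅, by simp, by simp⟩
  · rintro x y _ _ ⟨G, hG, rfl⟩ ⟨G', hG', rfl⟩
    refine ⟨symmDiff G G', fun p hp => ?_, (sum_symmDiff u G G').symm⟩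
    rcases Finset.mem_symmDiff.1 hp with ⟨hp, _⟩ | ⟨hp, _⟩
    exacts [hG hp, hG' hp]
  · rintro c x _ ⟨G, hG, rfl⟩
    rcases K_cases c with rfl | rfl
    · exact ⟨∅, by simp, by simp⟩
    · exact ⟨G, hG, by simp⟩

/-- every sequence in the grid has a good subsequence -/
lemma good_seq [Uncountable ι] (h : PairOK u s t) (p : ℕ → ℕ × ℕ) :
    ∃ (t' : Side ι) (φ : ℕ → ℕ), Ext t t' ∧ PairOK u s t' ∧ StrictMono φ ∧
      Good u s t' (Set.range (p ∘ φ)) := by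
  classical
  by_cases hA : ∃ j, ∃ᶠ i in atTop, u (p i) ∈ t.M j
  · obtain ⟨j, hj⟩ := hA
    obtain ⟨φ, hφ, h1⟩ := extraction_of_frequently_atTop hj
    refine ⟨t, φ, Ext.refl t, h, hφ, (h.J₂ j).mono ?_⟩
    rintro _ ⟨i, rfl⟩
    exact h1 i
  · push Not at hA
    have hA' : ∀ j, ∀ᶠ i in atTop, u (p i) ∉ t.M j := fun j => by
      simpa using hA j
    have hb : ∀ i, ∃ j, u (p i) ∈ t.M j := fun i => h.ok₂.cov _ (h.ok₂.base _)
    choose b hb using hb
    obtain ⟨φ, r, hφ, hr, -, h1⟩ := select (fun r _ i => u (p i) ∉ t.M r) (fun r _ => hA' r) b 0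
    have hne : ∀ k, u (p (φ k)) ≠ 0 := fun k h0 => (h1 k).1 (by rw [h0]; exact Submodule.zero_mem _)
    have hf : ∀ k, ∃ l ∈ t.X, t.b l (u (p (φ k))) ≠ 0 := fun k =>
      h.ok₂.sep _ (h.ok₂.base _) (hne k)
    choose f hf1 hf2 using hf
    have ok' := sub_ok h.ok₂ hr
    obtain ⟨ρ, hρ, -, hρ2⟩ := glue ok' (fun k => Submodule.span K {u (p (φ k))})
      (fun k => Submodule.fg_span_singleton _)
      (fun k => by
        rw [Submodule.span_singleton_le_iff_mem]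
        exact h.ok₂.mono (h1 k).2 (hb (φ k)))
      (fun k y hy hyM => by
        rcases mem_span_singleton_iff hy with h0 | h0
        · exact h0
        · rw [h0] at hyM
          exact ((h1 k).1 hyM).elim)
      (fun k => t.b (f k)) 0 0 (Submodule.zero_mem _)
    have hρR : ∀ n : ℕ, t.InR (lc ρ) := by
      intro _ j
      obtain ⟨l, hl, h2⟩ := hρ j
      exact ⟨l, hl, fun m hm => h2 m (h.ok₂.mono (hr.id_le j) hm)⟩
    obtain ⟨lam, hinj, hlam⟩ := exists_fresh h.ok₂.Lc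
    have e := addChars_ext (r := fun _ => ρ) hinj hlam hρR
    refine ⟨addChars t lam fun _ => ρ, φ, e, h.right e (addChars_ok h.ok₂) rfl, hφ, ∅,
      {Finsupp.single (lam 0) 1}, 0, by simp, ?_, ?_⟩
    · intro l hl
      rw [Finset.mem_singleton] at hl
      rw [hl]
      exact addChars_mem_new (r := fun _ => ρ) 0
    · rintro _ ⟨k, rfl⟩ _
      right
      refine ⟨_, Finset.mem_singleton_self _, ?_⟩
      rw [addChars_b_new (r := fun _ => ρ) hinj hlam 0]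
      rw [Function.comp, hρ2 k (Nat.zero_le _) _ (Submodule.mem_span_singleton_self _)]
      exact hf2 k

/-- the union of a subsequence of a sequence of sets of bounded size is good -/
lemma good_blocks [Uncountable ι] (n : ℕ) : ∀ (t : Side ι) (_ : PairOK u s t)
    (F : ℕ → Finset (ℕ × ℕ)) (_ : ∀ i, (F i).card ≤ n),
    ∃ (t' : Side ι) (φ : ℕ → ℕ), Ext t t' ∧ PairOK u s t' ∧ StrictMono φ ∧
      Good u s t' {p | ∃ i, p ∈ F (φ i)} := by
  classical
  induction n with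
  | zero =>
    intro t h F hF
    refine ⟨t, id, Ext.refl t, h, strictMono_id, Good.empty.mono ?_⟩
    rintro p ⟨i, hi⟩
    have := hF i
    rw [Nat.le_zero, Finset.card_eq_zero] at this
    simp [this] at hi
  | succ n ih =>
    intro t h F hF
    obtain ⟨t₁, φ₁, e₁, h₁, hφ₁, g₁⟩ := good_seq h
      fun i => if hi : (F i).Nonempty then hi.choose else (0, 0)
    set q : ℕ → ℕ × ℕ := fun i => if hi : (F i).Nonempty then hi.choose else (0, 0) with hq
    obtain ⟨t₂, φ₂, e₂, h₂, hφ₂, g₂⟩ := ih t₁ h₁ (fun i => (F (φ₁ i)).erase (q (φ₁ i))) fun i => by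
      by_cases hi : (F (φ₁ i)).Nonempty
      · have hm : q (φ₁ i) ∈ F (φ₁ i) := by
          simp only [hq, dif_pos hi]
          exact hi.choose_spec
        rw [Finset.card_erase_of_mem hm]
        have := hF (φ₁ i)
        omega
      · rw [Finset.not_nonempty_iff_eq_empty.1 hi]
        simp
    refine ⟨t₂, φ₁ ∘ φ₂, e₁.trans e₂, h₂, hφ₁.comp hφ₂, ?_⟩
    refine ((g₁.ext h₁.ok₁.base h₁.ok₂.base (Ext.refl s) e₂).union g₂).mono ?_
    rintro p ⟨i, hi⟩
    by_cases hp : p = q (φ₁ (φ₂ i))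
    · left; exact ⟨φ₂ i, hp.symm⟩
    · right; exact ⟨i, Finset.mem_erase.2 ⟨hp, hi⟩⟩

/-- the result of freezing a subsequence of `a` -/
def Frozen (u : ℕ × ℕ → ι →₀ K) (s t : Side ι) (a : ℕ → ι →₀ K) : Prop :=
  ∃ (s' t' : Side ι) (φ : ℕ → ℕ) (j : ℕ), Ext s s' ∧ Ext t t' ∧ PairOK u s' t' ∧ StrictMono φ ∧
    (∀ i, a (φ i) ∈ s'.M j) ∧
    ∀ l ∈ s'.X, ∃ l' ∈ s.X, ∀ i, s'.b l (a (φ i)) = s.b l' (a (φ i))

lemma frozen_long [Uncountable ι] (h : PairOK u s t) (a : ℕ → ι →₀ K) (ha : ∀ i, a i ∈ s.V)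
    (hlong : ∀ n j, ∀ᶠ i in atTop, ∀ F : Finset (ℕ × ℕ), F.card ≤ n →
      ∑ p ∈ F, u p + a i ∉ s.M j) : Frozen u s t a := by
  have hb : ∀ i, ∃ j, a i ∈ s.M j := fun i => h.ok₁.cov _ (ha i)
  choose b hb using hb
  obtain ⟨φ, r, hφ, hr, -, h1⟩ := select
    (fun r k i => ∀ F : Finset (ℕ × ℕ), F.card ≤ k → ∑ p ∈ F, u p + a i ∉ s.M r)
    (fun r k => hlong k r) b 0
  have ok' := sub_ok h.ok₁ hr
  obtain ⟨s', e, ok'', hM, hR, hloop⟩ := freeze ok' (fun k => Submodule.span K {a (φ k)})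
    (fun k => Submodule.fg_span_singleton _)
    (fun k => by
      rw [Submodule.span_singleton_le_iff_mem]
      exact h.ok₁.mono (h1 k).2 (hb (φ k)))
    ∅ (by simp) (fun k y hy hy0 F hF _ => by
      rcases mem_span_singleton_iff hy with h0 | h0
      · exact (hy0 h0).elim
      · rw [h0]
        exact (h1 k).1 F hF)
  have e' : Ext s s' := (sub_ext h.ok₁ hr).trans e
  have haM : ∀ i, a (φ i) ∈ s'.M 0 := fun i => by
    rw [hM]
    refine Submodule.mem_sup_right (Submodule.mem_iSup_of_mem i ?_)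
    exact Submodule.mem_span_singleton_self _
  refine ⟨s', t, φ, 0, e', Ext.refl t, h.left e' ok'' fun j => ?_, hφ, haM, fun l hl => ?_⟩
  · refine ((h.J₁ (r (max 1 j))).ext h.ok₁.base h.ok₂.base e' (Ext.refl t)).mono ?_
    intro p hp
    rcases hloop j p hp with h2 | h2
    · exact h2.elim
    · exact h2
  · obtain ⟨l', hl', h2⟩ := hR l hl
    exact ⟨l', hl', fun i => h2 _ (haM i)⟩

lemma frozen_short [Uncountable ι] (h : PairOK u s t) (a : ℕ → ι →₀ K) (n j₁ : ℕ)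
    (F : ℕ → Finset (ℕ × ℕ)) (hF : ∀ i, (F i).card ≤ n)
    (hFa : ∀ i, ∑ p ∈ F i, u p + a i ∈ s.M j₁)
    (hfar : ∀ j, ∀ᶠ i in atTop, ∀ p ∈ F i, u p ∉ s.M j) : Frozen u s t a := by
  classical
  obtain ⟨t₁, φ₁, e₁, h₁, hφ₁, g₁⟩ := good_blocks n t h F hF
  set G : ℕ → Finset (ℕ × ℕ) := fun i => F (φ₁ i) with hG
  have hfar' : ∀ j, ∀ᶠ i in atTop, ∀ p ∈ G i, u p ∉ s.M j := fun j =>
    hφ₁.tendsto_atTop.eventually (hfar j)
  choose P hP using h.ok₁.LI
  have hb : ∀ i, ∃ j, ∀ p ∈ G i, u p ∈ s.M j := by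
    intro i
    have : ∀ p, ∃ j, u p ∈ s.M j := fun p => h.ok₁.cov _ (h.ok₁.base p)
    choose κ hκ using this
    exact ⟨∑ p ∈ G i, κ p, fun p hp =>
      h.ok₁.mono (Finset.single_le_sum (f := κ) (fun _ _ => Nat.zero_le _) hp) (hκ p)⟩
  choose b hb using hb
  have hreq : ∀ r k, ∀ᶠ i in atTop, (∀ p ∈ G i, u p ∉ s.M r) ∧ ∀ p ∈ G i, p ∉ P r (k + n) := by
    intro r k
    refine (hfar' r).and ?_
    have h2 : ∀ᶠ i in atTop, ∀ q ∈ P r (k + n), q ∉ G i := by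
      rw [Filter.eventually_all_finset]
      intro q _
      obtain ⟨j, hj⟩ := h.ok₁.cov _ (h.ok₁.base q)
      filter_upwards [hfar' j] with i hi hq
      exact hi q hq hj
    filter_upwards [h2] with i hi p hp hpP
    exact hi p hpP hp
  obtain ⟨φ, r, hφ, hr, hr0, h1⟩ := select
    (fun r k i => (∀ p ∈ G i, u p ∉ s.M r) ∧ ∀ p ∈ G i, p ∉ P r (k + n)) hreq b j₁
  have ok' := sub_ok h.ok₁ hr
  have hQ : ∀ p ∈ {p | ∃ k, p ∈ G (φ k)}, u p ∈ ⨆ k, Submodule.span K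
      (u '' (G (φ k) : Set (ℕ × ℕ))) := by
    rintro p ⟨k, hk⟩
    exact Submodule.mem_iSup_of_mem k (Submodule.subset_span ⟨p, hk, rfl⟩)
  obtain ⟨s', e, ok'', hM, hR, hloop⟩ := freeze ok'
    (fun k => Submodule.span K (u '' (G (φ k) : Set (ℕ × ℕ))))
    (fun k => Submodule.fg_span ((Finset.finite_toSet _).image _))
    (fun k => by
      rw [Submodule.span_le]
      rintro _ ⟨p, hp, rfl⟩
      exact h.ok₁.mono (h1 k).2 (hb (φ k) p hp))
    {p | ∃ k, p ∈ G (φ k)} hQ (fun k y hy hy0 F' hF' hF'Q hmem => by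
      obtain ⟨G', hG', rfl⟩ := mem_span_image_iff hy
      have hne : G'.Nonempty := by
        rw [Finset.nonempty_iff_ne_empty]
        rintro rfl
        simp at hy0
      have hdis : Disjoint F' G' := by
        rw [Finset.disjoint_left]
        intro p hp hp'
        exact hF'Q p hp ⟨k, hG' hp'⟩
      rw [← Finset.sum_union hdis] at hmem
      have hc : (F' ∪ G').card ≤ k + n := by
        refine (Finset.card_union_le _ _).trans (add_le_add hF' ?_)
        exact (Finset.card_le_card hG').trans (hF _)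
      obtain ⟨p, hp⟩ := hne
      rcases hP (r k) (k + n) _ hc hmem p (Finset.mem_union_right _ hp) with h3 | h3
      · exact (h1 k).1.2 p (hG' hp) h3
      · exact (h1 k).1.1 p (hG' hp) h3)
  have e' : Ext s s' := (sub_ext h.ok₁ hr).trans e
  have haM : ∀ i, a (φ₁ (φ i)) ∈ s'.M 0 := fun i => by
    rw [hM]
    have h2 : a (φ₁ (φ i)) = ∑ p ∈ F (φ₁ (φ i)), u p + a (φ₁ (φ i)) + ∑ p ∈ F (φ₁ (φ i)), u p := by
      rw [add_right_comm, V_add_self, zero_add]
    rw [h2]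
    refine Submodule.add_mem _ (Submodule.mem_sup_left ?_) (Submodule.mem_sup_right ?_)
    · have : (s.sub r).M 0 = s.M j₁ := by simp [Side.sub, hr0]
      rw [this]
      exact hFa _
    · exact Submodule.sum_mem _ fun p hp => hQ p ⟨i, hp⟩
  refine ⟨s', t₁, φ₁ ∘ φ, 0, e', e₁, h₁.left e' ok'' fun j => ?_, hφ₁.comp hφ, haM,
    fun l hl => ?_⟩
  · refine ((g₁.ext h₁.ok₁.base h₁.ok₂.base e' (Ext.refl t₁)).union
      ((h₁.J₁ (r (max 1 j))).ext h₁.ok₁.base h₁.ok₂.base e' (Ext.refl t₁))).mono ?_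
    intro p hp
    rcases hloop j p hp with ⟨k, h2⟩ | h2
    · exact Or.inl ⟨φ k, h2⟩
    · exact Or.inr h2
  · obtain ⟨l', hl', h2⟩ := hR l hl
    exact ⟨l', hl', fun i => h2 _ (haM i)⟩

lemma Frozen.comp {a : ℕ → ι →₀ K} {φ : ℕ → ℕ} (hφ : StrictMono φ)
    (h : Frozen u s t (a ∘ φ)) : Frozen u s t a := by
  obtain ⟨s', t', ψ, j, e, e', ok, hψ, h1, h2⟩ := h
  exact ⟨s', t', φ ∘ ψ, j, e, e', ok, hφ.comp hψ, h1, h2⟩

theorem frozen_seq [Uncountable ι] (h : PairOK u s t) (a : ℕ → ι →₀ K) (ha : ∀ i, a i ∈ s.V) :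
    Frozen u s t a := by
  classical
  by_cases hA : ∃ j, ∃ᶠ i in atTop, a i ∈ s.M j
  · obtain ⟨j, hj⟩ := hA
    obtain ⟨φ, hφ, h1⟩ := extraction_of_frequently_atTop hj
    exact ⟨s, t, φ, j, Ext.refl s, Ext.refl t, h, hφ, h1, fun l hl => ⟨l, hl, fun _ => rfl⟩⟩
  let T : ℕ → Prop := fun n => ∃ j, ∃ᶠ i in atTop, ∃ F : Finset (ℕ × ℕ), F.card ≤ n ∧
    ∑ p ∈ F, u p + a i ∈ s.M j
  by_cases hT : ∃ n, T n
  · have hT0 := Nat.find_spec hT
    have hmin := fun m (hm : m < Nat.find hT) => Nat.find_min hT hm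
    set n := Nat.find hT with hn
    obtain ⟨j₁, hj₁⟩ := hT0
    obtain ⟨φ, hφ, h1⟩ := extraction_of_frequently_atTop hj₁
    choose F hF1 hF2 using h1
    refine Frozen.comp hφ (frozen_short h (a ∘ φ) n j₁ F hF1 hF2 fun j => ?_)
    by_contra hc
    rw [not_eventually] at hc
    have hn0 : n ≠ 0 := by
      intro hn0
      obtain ⟨i, hi⟩ := hc.exists
      push Not at hi
      obtain ⟨p, hp, _⟩ := hi
      have := hF1 i
      rw [hn0, Nat.le_zero, Finset.card_eq_zero] at this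
      simp [this] at hp
    refine hmin (n - 1) (by omega) ⟨max j₁ j, ?_⟩
    refine hφ.tendsto_atTop.frequently (hc.mono fun i hi => ?_)
    push Not at hi
    obtain ⟨p, hp, hpj⟩ := hi
    refine ⟨(F i).erase p, ?_, ?_⟩
    · rw [Finset.card_erase_of_mem hp]
      have := hF1 i
      omega
    · have h3 := Finset.sum_erase_add (F i) u hp
      have h4 : ∑ q ∈ (F i).erase p, u q = ∑ q ∈ F i, u q + u p := by
        rw [← h3, add_assoc, V_add_self, add_zero]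
      rw [h4, add_right_comm]
      exact add_mem (h.ok₁.mono (le_max_left _ _) (hF2 i))
        (h.ok₁.mono (le_max_right _ _) hpj)
  · refine frozen_long h a ha fun n j => ?_
    by_contra hc
    rw [not_eventually] at hc
    refine hT ⟨n, j, hc.mono fun i hi => ?_⟩
    push Not at hi
    exact hi

end Pool.Agent.W654.SG
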