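import Pool.Agent.W654.SG.Limit

/-!
# Unions of increasing sequences of sides
-/

set_option autoImplicit false

namespace Pool.Agent.W654.SG

open Filter

variable {ι : Type} {u : ℕ × ℕ → ι →₀ K}

/-- the closure of a subgroup -/
noncomputable def clos (s : Side ι) (N : Submodule K (ι →₀ K)) : Submodule K (ι →₀ K) :=
  s.V ⊓ ⨅ l : {l // l ∈ s.X ∧ ∀ m ∈ N, s.b l m = 0}, LinearMap.ker (s.b l)

lemma mem_clos {s : Side ι} {N : Submodule K (ι →₀ K)} {y : ι →₀ K} :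
    y ∈ clos s N ↔ y ∈ s.V ∧ ∀ l ∈ s.X, (∀ m ∈ N, s.b l m = 0) → s.b l y = 0 := by
  simp only [clos, Submodule.mem_inf, Submodule.mem_iInf, LinearMap.mem_ker, Subtype.forall]
  exact and_congr_right fun _ => ⟨fun h l h1 h2 => h l ⟨h1, h2⟩, fun h l h1 => h l h1.1 h1.2⟩

lemma exists_of_supported {D : ℕ → Set ι} (hD : Monotone D) {v : ι →₀ K}
    (hv : v ∈ Finsupp.supported K K (⋃ n, D n)) : ∃ n, v ∈ Finsupp.supported K K (D n) := by
  have hv' : ↑v.support ⊆ ⋃ n, D n := hv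
  have : ∀ a, ∃ n, a ∈ v.support → a ∈ D n := by
    intro a
    by_cases ha : a ∈ v.support
    · obtain ⟨n, hn⟩ := Set.mem_iUnion.1 (hv' ha)
      exact ⟨n, fun _ => hn⟩
    · exact ⟨0, fun h => (ha h).elim⟩
  choose κ hκ using this
  refine ⟨∑ a ∈ v.support, κ a, ?_⟩
  change (v.support : Set ι) ⊆ D _
  intro a ha
  exact hD (Finset.single_le_sum (f := κ) (fun _ _ => Nat.zero_le _) ha) (hκ a ha)

lemma ext_le {σ : ℕ → Side ι} (h : ∀ n, Ext (σ n) (σ (n + 1))) {n m : ℕ} (hnm : n ≤ m) :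
    Ext (σ n) (σ m) := by
  induction hnm with
  | refl => exact Ext.refl _
  | step _ ih => exact ih.trans (h _)

theorem union_side {σ : ℕ → Side ι} (ok : ∀ n, (σ n).OK u) (h : ∀ n, Ext (σ n) (σ (n + 1))) :
    ∃ τ : Side ι, τ.OK u ∧ (∀ n, Ext (σ n) τ) ∧ τ.D = ⋃ n, (σ n).D ∧ τ.L = ⋃ n, (σ n).L ∧
      ∀ j, ∃ n k, ∀ p, u p ∈ τ.M j → u p ∈ (σ n).M k := by
  classical
  have hle := fun {n m : ℕ} (hnm : n ≤ m) => ext_le h hnm
  have hDm : Monotone fun n => (σ n).D := fun n m hnm => (hle hnm).D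
  have hLm : Monotone fun n => (σ n).L := fun n m hnm => (hle hnm).L
  -- the subgroups
  have hκ : ∀ k n i, ∃ K', k ≤ n → (σ k).M i ≤ (σ n).M K' := by
    intro k n i
    by_cases hkn : k ≤ n
    · obtain ⟨K', hK'⟩ := (hle hkn).M i
      exact ⟨K', fun _ => hK'⟩
    · exact ⟨0, fun h => (hkn h).elim⟩
  choose κ hκ using hκ
  obtain ⟨m, hm⟩ : ∃ m : ℕ → ℕ, ∀ n, κ n (n + 1) (m n) +
      ∑ k ∈ Finset.range (n + 2), ∑ i ∈ Finset.range (n + 2), κ k (n + 1) i ≤ m (n + 1) :=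
    ⟨fun n => Nat.rec 0 (fun n mn => κ n (n + 1) mn +
      ∑ k ∈ Finset.range (n + 2), ∑ i ∈ Finset.range (n + 2), κ k (n + 1) i) n, fun n => le_rfl⟩
  set N : ℕ → Submodule K (ι →₀ K) := fun n => (σ n).M (m n) with hN
  have hNmono : Monotone N := by
    refine monotone_nat_of_le_succ fun n => ?_
    exact (hκ n (n + 1) (m n) (Nat.le_succ n)).trans ((ok (n + 1)).mono
      ((Nat.le_add_right _ _).trans (hm n)))
  have hNM : ∀ n k i, k ≤ n + 1 → i ≤ n + 1 → (σ k).M i ≤ N (n + 1) := by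
    intro n k i hk hi
    refine (hκ k (n + 1) i hk).trans ((ok (n + 1)).mono (le_trans ?_ (hm n)))
    have h1 : κ k (n + 1) i ≤ ∑ i ∈ Finset.range (n + 2), κ k (n + 1) i :=
      Finset.single_le_sum (f := fun i => κ k (n + 1) i) (fun _ _ => Nat.zero_le _)
        (Finset.mem_range.2 (by omega))
    have h2 : ∑ i ∈ Finset.range (n + 2), κ k (n + 1) i ≤
        ∑ k ∈ Finset.range (n + 2), ∑ i ∈ Finset.range (n + 2), κ k (n + 1) i :=
      Finset.single_le_sum (f := fun k => ∑ i ∈ Finset.range (n + 2), κ k (n + 1) i)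
        (fun _ _ => Nat.zero_le _) (Finset.mem_range.2 (by omega))
    omega
  -- the matrix
  let c : ι → ι → K := fun l a =>
    if hex : ∃ n, l ∈ (σ n).L ∧ a ∈ (σ n).D then (σ hex.choose).c l a else 0
  have hc : ∀ n, ∀ l ∈ (σ n).L, ∀ a ∈ (σ n).D, c l a = (σ n).c l a := by
    intro n l hl a ha
    have hex : ∃ n, l ∈ (σ n).L ∧ a ∈ (σ n).D := ⟨n, hl, ha⟩
    have h1 : c l a = (σ hex.choose).c l a := dif_pos hex
    rw [h1]
    obtain ⟨h2, h3⟩ := hex.choose_spec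
    rcases le_total hex.choose n with hn | hn
    · exact ((hle hn).c l h2 a h3).symm
    · exact (hle hn).c l hl a ha
  let τ₀ : Side ι := ⟨⋃ n, (σ n).D, ⋃ n, (σ n).L, c, fun _ => ⊥⟩
  let τ : Side ι := ⟨⋃ n, (σ n).D, ⋃ n, (σ n).L, c, fun n => clos τ₀ (N n)⟩
  have hbV : ∀ n, (σ n).V ≤ τ.V := fun n =>
    Finsupp.supported_mono (Set.subset_iUnion (fun n => (σ n).D) n)
  have hbX : ∀ n, (σ n).X ≤ τ.X := fun n =>
    Finsupp.supported_mono (Set.subset_iUnion (fun n => (σ n).L) n)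
  have hb : ∀ n, ∀ l ∈ (σ n).X, ∀ v ∈ (σ n).V, τ.b l v = (σ n).b l v := fun n l hl v hv =>
    B_congr (hc n) hl hv
  have hexV : ∀ v ∈ τ.V, ∃ n, v ∈ (σ n).V := fun v hv => exists_of_supported hDm hv
  have hexX : ∀ l ∈ τ.X, ∃ n, l ∈ (σ n).X := fun l hl => exists_of_supported hLm hl
  have hmem : ∀ {n y}, y ∈ τ.M n ↔ y ∈ τ.V ∧ ∀ l ∈ τ.X, (∀ m ∈ N n, τ.b l m = 0) → τ.b l y = 0 :=
    fun {n y} => mem_clos
  have hNV : ∀ n, N n ≤ (σ n).V := fun n => (ok n).Mle _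
  have hNτ : ∀ n, N n ≤ τ.M n := fun n y hy =>
    hmem.2 ⟨hbV n (hNV n hy), fun l _ hl => hl y hy⟩
  have hback : ∀ n, ∀ y ∈ (σ n).V, y ∈ τ.M n → y ∈ N n := by
    intro n y hy hyM
    by_contra hn
    obtain ⟨l, hl, h1, h2⟩ := (ok n).closed (m n) y hy hn
    apply h2
    rw [← hb n l hl y hy]
    refine (hmem.1 hyM).2 l (hbX n hl) fun z hz => ?_
    rw [hb n l hl z (hNV n hz)]
    exact h1 z hz
  have hτmono : Monotone τ.M := by
    intro i j hij y hy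
    rw [hmem] at hy ⊢
    exact ⟨hy.1, fun l hl h1 => hy.2 l hl fun z hz => h1 z (hNmono hij hz)⟩
  have hallM : ∀ n i, (σ n).M i ≤ τ.M (max n i + 1) := fun n i =>
    (hNM (max n i) n i (by omega) (by omega)).trans (hNτ _)
  refine ⟨τ, ⟨Set.countable_iUnion fun n => (ok n).Dc, Set.countable_iUnion fun n => (ok n).Lc,
    fun j y hy => (hmem.1 hy).1, hτmono, fun v hv => ?_, fun v hv hv0 => ?_, fun j y hy hyj => ?_,
    fun p => hbV 0 ((ok 0).base p), fun j n => ?_⟩, fun n => ⟨Set.subset_iUnion (fun n => (σ n).D) n,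
    Set.subset_iUnion (fun n => (σ n).L) n, hc n, fun j => ⟨_, hallM n j⟩, fun l hl j => ?_⟩,
    rfl, rfl, fun j => ⟨j, m j, fun p hp => hback j _ ?_ hp⟩⟩
  · obtain ⟨n, hn⟩ := hexV v hv
    obtain ⟨i, hi⟩ := (ok n).cov v hn
    exact ⟨_, hallM n i hi⟩
  · obtain ⟨n, hn⟩ := hexV v hv
    obtain ⟨l, hl, h1⟩ := (ok n).sep v hn hv0
    exact ⟨l, hbX n hl, by rwa [hb n l hl v hn]⟩
  · rw [hmem, not_and] at hyj
    have := hyj hy
    push Not at this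
    obtain ⟨l, hl, h1, h2⟩ := this
    exact ⟨l, hl, fun z hz => (hmem.1 hz).2 l hl h1, h2⟩
  · obtain ⟨P, hP⟩ := (ok j).LI (m j) n
    refine ⟨P, fun F hF hFM p hp => ?_⟩
    have h1 := hback j _ (Submodule.sum_mem _ fun q _ => (ok j).base q) hFM
    rcases hP F hF h1 p hp with h2 | h2
    · exact Or.inl h2
    · exact Or.inr (hNτ j h2)
  · obtain ⟨n', hn'⟩ := hexX l hl
    have hl' : l ∈ (σ (max n n')).X := (hle (le_max_right n n')).X hn'
    obtain ⟨l', h1, h2⟩ := (hle (le_max_left n n')).R l hl' j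
    refine ⟨l', h1, fun z hz => ?_⟩
    rw [← h2 z hz]
    exact hb _ l hl' z ((hle (le_max_left n n')).V ((ok n).Mle _ hz))
  · exact (ok j).base p

theorem union_pair {σ τ : ℕ → Side ι} (ok : ∀ n, PairOK u (σ n) (τ n))
    (h : ∀ n, Ext (σ n) (σ (n + 1))) (h' : ∀ n, Ext (τ n) (τ (n + 1))) :
    ∃ s t : Side ι, PairOK u s t ∧ (∀ n, Ext (σ n) s) ∧ (∀ n, Ext (τ n) t) ∧
      s.D = ⋃ n, (σ n).D ∧ s.L = ⋃ n, (σ n).L ∧ t.D = ⋃ n, (τ n).D ∧ t.L = ⋃ n, (τ n).L := by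
  obtain ⟨s, hs, hsE, hsD, hsL, hsM⟩ := union_side (fun n => (ok n).ok₁) h
  obtain ⟨t, ht, htE, htD, htL, htM⟩ := union_side (fun n => (ok n).ok₂) h'
  refine ⟨s, t, ⟨hs, ht, fun j => ?_, fun j => ?_⟩, hsE, htE, hsD, hsL, htD, htL⟩
  · obtain ⟨n, k, hnk⟩ := hsM j
    exact (((ok n).J₁ k).ext (ok n).ok₁.base (ok n).ok₂.base (hsE n) (htE n)).mono hnk
  · obtain ⟨n, k, hnk⟩ := htM j
    exact (((ok n).J₂ k).ext (ok n).ok₁.base (ok n).ok₂.base (hsE n) (htE n)).mono hnk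

end Pool.Agent.W654.SG
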