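import Pool.Agent.W684.SG.Stm

/-!
# Upwards absoluteness for coded analytic sets (part SG-UP of project SG)
-/

set_option autoImplicit false

namespace Pool.Agent.W654.SG

open Pool.Agent.Helper669.Forcing Pool.Agent.W684.SG

theorem mem_fiff {P : Type*} [Preorder P] {φ ψ : Set P} {q : P} :
    q ∈ fiff φ ψ ↔ q ∈ fimp φ ψ ∧ q ∈ fimp ψ φ := Iff.rfl

theorem up : S_UP := by
  classical
  intro P _ y0 e t x q hx ht hin
  obtain ⟨w, hw⟩ := hin
  let W : ℕ → ℕ → Set P := fun i j => fground (w i = j)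
  have hWm : ∀ (r : P) (i j : ℕ), r ∈ meets (W i j) → w i = j := by
    intro r i j h
    obtain ⟨r', _, s, hs, _⟩ := h r le_rfl
    exact hs
  refine mem_fex_of_mem W ?_ ⟨?_, ?_⟩
  · exact down_fand (down_IsFun W) (down_fall fun a => down_fall fun l => down_fimp _ _)
  · refine ⟨fun i => ?_, fun i j j' => ?_⟩
    · exact mem_fex_of_mem (w i) (down_meets _) (meets_of_mem rfl)
    · refine mem_fimp.2 fun r _ h => ⟨r, le_rfl, ?_⟩
      exact (hWm r i j h.1).symm.trans (hWm r i j' h.2)
  · intro a l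
    refine mem_fimp.2 fun r hr h => ⟨r, le_rfl, ?_⟩
    obtain ⟨hcut, hW⟩ := h
    have h1 : ∀ i, i < l.length → w i = l.getD i 0 := by
      intro i hi
      obtain ⟨r', _, h'⟩ := mem_fimp.1 (hW i) r le_rfl hi
      exact hWm r' i _ h'
    have h2 : ∀ i, e i < l.length → (e i ∈ a ↔ t i) := by
      intro i hi
      constructor
      · intro hia
        by_contra hti
        obtain ⟨r', hr', h'⟩ := mem_fimp.1 (mem_fiff.1 (hcut (e i))).1 r le_rfl hia
        exact (ht i).2 hti r' (hr'.trans hr) h'.2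
      · intro hti
        have hxe : r ∈ x (e i) := hx _ q ((ht i).1 hti) r hr
        obtain ⟨r', hr', h'⟩ := mem_fimp.1 (mem_fiff.1 (hcut (e i))).2 r le_rfl ⟨hi, hxe⟩
        exact h'
    refine meets_of_mem ?_
    change shift e y0 a l
    intro m hm hme
    have hlen : (l.take m).length = m := by simp [hm]
    refine hw _ _ (fun i => ?_) (fun i hi => ?_)
    · rw [hlen, Finset.mem_filter, Finset.mem_range]
      constructor
      · rintro ⟨him, hia⟩
        exact ⟨him, (h2 i (hme i him)).1 hia⟩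
      · rintro ⟨him, hti⟩
        exact ⟨him, (h2 i (hme i him)).2 hti⟩
    · rw [hlen] at hi
      rw [h1 i (lt_of_lt_of_le hi hm)]
      simp [List.getD_eq_getElem?_getD, hi]

end Pool.Agent.W654.SG
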